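import Pool.Agent.W296.MC.Defs

/-!
# Greedy matching in periodic words
-/

set_option autoImplicit false

namespace Pool.Agent.W296.MC

variable {B : Type} {q : ℕ → B} {n : ℕ}

lemma nf_ex (hq : Per q n) (τ : ℕ) (b : B) : ∃ t', τ ≤ t' ∧ q t' = b := by
  obtain ⟨t, h1, _, h3⟩ := hq.ex τ b
  exact ⟨t, h1, h3⟩

lemma nf_ge (hq : Per q n) (τ : ℕ) (b : B) : τ ≤ nf q τ b := by
  classical
  have h := nf_ex hq τ b
  unfold nf
  rw [dif_pos h]
  exact (Nat.find_spec h).1

lemma q_nf (hq : Per q n) (τ : ℕ) (b : B) : q (nf q τ b) = b := by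
  classical
  have h := nf_ex hq τ b
  unfold nf
  rw [dif_pos h]
  exact (Nat.find_spec h).2

lemma nf_le {τ t : ℕ} {b : B} (h1 : τ ≤ t) (h2 : q t = b) : nf q τ b ≤ t := by
  classical
  unfold nf
  rw [dif_pos ⟨t, h1, h2⟩]
  exact Nat.find_min' _ ⟨h1, h2⟩

lemma nf_lt (hq : Per q n) (τ : ℕ) (b : B) : nf q τ b < τ + n := by
  obtain ⟨t, h1, h2, h3⟩ := hq.ex τ b
  exact lt_of_le_of_lt (nf_le h1 h3) h2

lemma n_pos (hq : Per q n) : 0 < n := by
  have := nf_lt hq 0 (q 0)
  omega

lemma nf_eq (hq : Per q n) {τ t : ℕ} {b : B} (h1 : τ ≤ t) (h2 : q t = b) (h3 : t < τ + n) :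
    nf q τ b = t := by
  have h4 := nf_le h1 h2
  have h5 := nf_ge hq τ b
  by_contra h
  exact hq.uniq (nf q τ b) t (by omega) (by omega) (by rw [q_nf hq, h2])

lemma nf_self (hq : Per q n) (t : ℕ) : nf q t (q t) = t :=
  nf_eq hq le_rfl rfl (by have := n_pos hq; omega)

lemma nf_add (hq : Per q n) (τ : ℕ) (b : B) : nf q (τ + n) b = nf q τ b + n := by
  apply nf_eq hq
  · have := nf_ge hq τ b
    omega
  · rw [hq.per, q_nf hq]
  · have := nf_lt hq τ b
    omega

lemma nf_mono (hq : Per q n) {τ τ' : ℕ} (b : B) (h : τ ≤ τ') : nf q τ b ≤ nf q τ' b :=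
  nf_le (le_trans h (nf_ge hq τ' b)) (q_nf hq _ _)

lemma nf_succ (hq : Per q n) (t : ℕ) : nf q (t + 1) (q t) = t + n := by
  apply nf_eq hq
  · have := n_pos hq
    omega
  · exact hq.per t
  · omega

/-- if `nf q τ b ≥ τ'` then the first occurrence from `τ'` is the same -/
lemma nf_of_le (hq : Per q n) {τ τ' : ℕ} {b : B} (h : τ ≤ τ') (h' : τ' ≤ nf q τ b) :
    nf q τ' b = nf q τ b :=
  le_antisymm (nf_le h' (q_nf hq _ _)) (nf_mono hq b h)

lemma nf_mid (hq : Per q n) {t : ℕ} {b : B} (hb : b ≠ q t) : nf q (t + 1) b < t + n := by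
  have h := nf_lt hq (t + 1) b
  rcases Nat.lt_or_ge (nf q (t + 1) b) (t + n) with h1 | h1
  · exact h1
  · exfalso
    have h2 : nf q (t + 1) b = t + n := by omega
    apply hb
    rw [← q_nf hq (t + 1) b, h2, hq.per]

lemma nf_aba (hq : Per q n) (t : ℕ) {b : B} (hb : b ≠ q t) :
    nf q (nf q (t + 1) b + 1) (q t) = t + n := by
  have h1 := nf_mid hq hb
  have h2 := nf_ge hq (t + 1) b
  apply nf_eq hq
  · omega
  · exact hq.per t
  · omega

@[simp] lemma en_nil (τ : ℕ) : en q τ [] = τ := rfl

@[simp] lemma en_cons (τ : ℕ) (b : B) (γ : List B) : en q τ (b :: γ) = en q (nf q τ b + 1) γ := rfl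

lemma en_append (τ : ℕ) (γ γ' : List B) : en q τ (γ ++ γ') = en q (en q τ γ) γ' := by
  unfold en
  rw [List.foldl_append]

lemma en_add (hq : Per q n) (τ : ℕ) (γ : List B) : en q (τ + n) γ = en q τ γ + n := by
  induction γ generalizing τ with
  | nil => rfl
  | cons b γ ih =>
    rw [en_cons, en_cons, nf_add hq, ← ih]
    congr 1
    omega

lemma en_mono (hq : Per q n) {τ τ' : ℕ} (h : τ ≤ τ') (γ : List B) : en q τ γ ≤ en q τ' γ := by
  induction γ generalizing τ τ' with
  | nil => exact h
  | cons b γ ih =>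
    rw [en_cons, en_cons]
    apply ih
    have := nf_mono hq b h
    omega

lemma en_ge (hq : Per q n) (τ : ℕ) (γ : List B) : τ + γ.length ≤ en q τ γ := by
  induction γ generalizing τ with
  | nil => simp
  | cons b γ ih =>
    rw [en_cons, List.length_cons]
    have := ih (nf q τ b + 1)
    have := nf_ge hq τ b
    omega

/-- the end of the greedy matching of a nonempty word -/
lemma en_concat (τ : ℕ) (γ : List B) (b : B) :
    en q τ (γ ++ [b]) = nf q (en q τ γ) b + 1 := by
  rw [en_append, en_cons, en_nil]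

lemma en_aba (hq : Per q n) (τ : ℕ) {a b : B} (hb : b ≠ a) :
    en q τ [a, b, a] = nf q τ a + n + 1 := by
  rw [en_cons, en_cons, en_cons, en_nil]
  have h := nf_aba hq (nf q τ a) (b := b) (by rwa [q_nf hq])
  rw [q_nf hq] at h
  rw [h]

/-- greedy minimality -/
lemma en_le_of_pos (hq : Per q n) (L : List ℕ) : ∀ (τ : ℕ) (_ : L.Pairwise (· < ·))
    (_ : ∀ x ∈ L, τ ≤ x) (h : L ≠ []), en q τ (L.map q) ≤ L.getLast h + 1 := by
  induction L with
  | nil => intro τ _ _ h; exact absurd rfl h
  | cons x L ih =>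
    intro τ h1 h2 h
    rw [List.map_cons, en_cons]
    rw [List.pairwise_cons] at h1
    have h3 : nf q τ (q x) ≤ x := nf_le (h2 x (by simp)) rfl
    by_cases hL : L = []
    · subst hL
      simp only [List.map_nil, en_nil, List.getLast_singleton]
      omega
    · rw [List.getLast_cons hL]
      apply ih _ h1.2 _ hL
      intro y hy
      have := h1.1 y hy
      omega

lemma sub_range (hq : Per q n) (m : ℕ) : ∀ (τ : ℕ) (γ : List B),
    γ.Sublist ((List.range' τ m).map q) ↔ en q τ γ ≤ τ + m := by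
  induction m with
  | zero =>
    intro τ γ
    rw [List.range'_zero, List.map_nil, List.sublist_nil]
    constructor
    · rintro rfl
      simp
    · intro h
      have := en_ge hq τ γ
      rw [← List.length_eq_zero_iff]
      omega
  | succ m ih =>
    intro τ γ
    rw [List.range'_succ, List.map_cons]
    cases γ with
    | nil => simp
    | cons b γ =>
      rw [en_cons]
      by_cases hb : q τ = b
      · subst hb
        rw [List.cons_sublist_cons, ih, nf_self hq]
        omega
      · have h1 : nf q (τ + 1) b = nf q τ b := by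
          apply nf_of_le hq (by omega)
          have h2 := nf_ge hq τ b
          rcases Nat.eq_or_lt_of_le h2 with h3 | h3
          · exfalso
            apply hb
            rw [h3, q_nf hq]
          · exact h3
        rw [← h1, ← en_cons (τ := τ + 1)]
        have h2 : (b :: γ).Sublist (q τ :: (List.range' (τ + 1) m).map q) ↔
            (b :: γ).Sublist ((List.range' (τ + 1) m).map q) := by
          constructor
          · intro h
            cases h with
            | cons _ h => exact h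
            | cons_cons _ h => exact absurd rfl hb
          · intro h
            exact h.cons _
        rw [h2, ih]
        omega

lemma sub_pre (hq : Per q n) (T : ℕ) (γ : List B) : γ.Sublist (pre q T) ↔ en q 0 γ ≤ T := by
  unfold pre
  rw [List.range_eq_range', sub_range hq]
  omega

lemma pre_succ (T : ℕ) : pre q (T + 1) = pre q T ++ [q T] := by
  unfold pre
  rw [List.range_succ, List.map_append, List.map_singleton]

/-- suffix lemma -/
lemma en_suffix (hq : Per q n) (γ : List B) : ∀ τ : ℕ, τ ≤ n → n < en q τ γ →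
    ∃ γ₁ γ₂ : List B, γ = γ₁ ++ γ₂ ∧ γ₂ ≠ [] ∧ en q τ γ = en q 0 γ₂ + n := by
  induction γ with
  | nil => intro τ h1 h2; rw [en_nil] at h2; omega
  | cons b γ ih =>
    intro τ h1 h2
    rw [en_cons] at h2
    by_cases h3 : nf q τ b + 1 ≤ n
    · obtain ⟨γ₁, γ₂, h4, h5, h6⟩ := ih _ h3 h2
      exact ⟨b :: γ₁, γ₂, by rw [h4]; rfl, h5, by rw [en_cons]; exact h6⟩
    · refine ⟨[], b :: γ, rfl, by simp, ?_⟩
      rw [← en_add hq, zero_add, en_cons, en_cons, nf_of_le hq h1 (by omega)]

end Pool.Agent.W296.MC
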