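import Pool.Agent.W296.MC.Iface

/-!
# The weighted dimensions dominate the root coordinates (ROOT)
-/

set_option autoImplicit false

namespace Pool.Agent.W296.MC

open Pool.Agent.Helper741

section

variable {B : Type} [DecidableEq B] (M : CoxeterMatrix B) (q : ℕ → B) (s : B) (d0 : ℝ) (D : ℕ → ℝ)

/-- the functional -/
noncomputable def nu : ℕ → B → ℝ
  | 0 => fun b => if b = s then d0 else 0
  | (t + 1) => fun b => if b = q t then - D t else nu t b + 2 * cc M b (q t) * D t

lemma nu_succ (t : ℕ) (b : B) : nu M q s d0 D (t + 1) b =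
    if b = q t then - D t else nu M q s d0 D t b + 2 * cc M b (q t) * D t := rfl

variable {M q s d0 D}

lemma nu_window {b : B} {τ t : ℕ} (h : τ ≤ t) (hb : ∀ t', τ ≤ t' → t' < t → q t' ≠ b) :
    nu M q s d0 D t b = nu M q s d0 D τ b + ∑ t' ∈ Finset.Ico τ t, 2 * cc M b (q t') * D t' := by
  induction t, h using Nat.le_induction with
  | base => simp
  | succ t ht ih =>
    rw [Finset.sum_Ico_succ_top ht, ← add_assoc, ← ih (fun t' h1 h2 => hb t' h1 (by omega))]
    rw [nu_succ, if_neg (hb t ht (by omega)).symm]

lemma nu_le {n : ℕ} (hq : Per q n)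
    (h1 : ∀ t, t < n → (if q t = s then d0 else 0) +
      ∑ t' ∈ Finset.range t, 2 * cc M (q t) (q t') * D t' ≤ D t)
    (h2 : ∀ t, n ≤ t → ∑ t' ∈ Finset.Ico (t - n + 1) t, 2 * cc M (q t) (q t') * D t'
      ≤ D t + D (t - n)) (t : ℕ) : nu M q s d0 D t (q t) ≤ D t := by
  rcases Nat.lt_or_ge t n with h | h
  · rw [nu_window (τ := 0) (by omega) (fun t' _ h3 => hq.uniq t' t h3 (by omega))]
    have := h1 t h
    rw [Finset.range_eq_Ico] at this
    exact this
  · have hn : 0 < n := by
      obtain ⟨t', h3, h4, _⟩ := hq.ex 0 (q 0)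
      omega
    rw [nu_window (τ := t - n + 1) (by omega) (fun t' h3 h4 => hq.uniq t' t h4 (by omega))]
    have h3 : q t = q (t - n) := by
      rw [← hq.per (t - n)]
      congr 1
      omega
    have h4 : nu M q s d0 D (t - n + 1) (q t) = - D (t - n) := by
      rw [nu_succ, if_pos h3]
    rw [h4]
    have := h2 t h
    linarith

end

variable {B : Type} [Fintype B] [DecidableEq B] {M : CoxeterMatrix B}

lemma vec_eq (v : B → ℝ) : v = ∑ i, v i • ee i := by
  ext j
  simp [ee, Finset.sum_apply, Pi.single_apply]

lemma sg_coord (a : B) (v : B → ℝ) :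
    sg M a v = v + (∑ c, 2 * cc M c a * v c) • ee a := by
  conv_lhs => rw [vec_eq v, map_sum]
  have h : ∀ c, sg M a (v c • ee c) = v c • ee c + (2 * cc M c a * v c) • ee a := by
    intro c
    rw [map_smul, sg_ee, smul_add, smul_smul]
    congr 2
    ring
  simp only [h]
  rw [Finset.sum_add_distrib, ← vec_eq v, Finset.sum_smul]

lemma ee_apply (a c : B) : (ee a : B → ℝ) c = if c = a then 1 else 0 := by
  unfold ee
  rw [Pi.single_apply]

variable {W : Type} [Group W] {cs : CoxeterSystem M W}

lemma geo_dich (w : W) (i : B) : 0 ≤ geo cs w (ee i) ∨ geo cs w (ee i) ≤ 0 := by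
  rcases cs.length_mul_simple w i with h | h
  · left; exact geo_nonneg cs w i (by omega)
  · right; exact geo_nonpos cs w i (by omega)

theorem root_inv (q : ℕ → B) {n : ℕ} (hq : Per q n) (s : B) (d0 : ℝ) (D : ℕ → ℝ)
    (hG : ∀ t, ¬ InG cs q t → D t = 0)
    (h1 : ∀ t, t < n → (if q t = s then d0 else 0) +
      ∑ t' ∈ Finset.range t, 2 * cc M (q t) (q t') * D t' ≤ D t)
    (h2 : ∀ t, n ≤ t → ∑ t' ∈ Finset.Ico (t - n + 1) t, 2 * cc M (q t) (q t') * D t'
      ≤ D t + D (t - n)) (t : ℕ) : ∀ (x : W) (b : B), 0 ≤ geo cs x (ee b) →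
      0 ≤ geo cs (gr cs q t) (geo cs x (ee b)) →
      d0 * (geo cs (gr cs q t) (geo cs x (ee b))) s ≤
        ∑ c, nu M q s d0 D t c * (geo cs x (ee b)) c := by
  induction t with
  | zero =>
    intro x b _ _
    have e1 : geo cs (gr cs q 0) (geo cs x (ee b)) = geo cs x (ee b) := by
      show geo cs 1 (geo cs x (ee b)) = _
      rw [map_one, Module.End.one_apply]
    rw [e1]
    simp only [nu, ite_mul, zero_mul]
    rw [Finset.sum_ite_eq' Finset.univ s, if_pos (Finset.mem_univ _)]
  | succ t ih =>
    intro x b hx hgx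
    set β := geo cs x (ee b) with hβ
    set a := q t with ha
    have hν := nu_le hq h1 h2 t
    rw [← ha] at hν
    by_cases hin : InG cs q t
    · have e1 : geo cs (gr cs q (t + 1)) β = geo cs (gr cs q t) (sg M a β) := by
        unfold InG at hin
        rw [gr, if_pos hin, map_mul, Module.End.mul_apply, geo_simple]
      have e2 : sg M a β = geo cs (cs.simple a * x) (ee b) := by
        rw [map_mul, Module.End.mul_apply, geo_simple]
      set κ := ∑ c, 2 * cc M c a * β c with hκ
      have e3 : sg M a β = β + κ • ee a := sg_coord a β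
      have e4 : ∑ c, nu M q s d0 D (t + 1) c * β c =
          ∑ c, nu M q s d0 D t c * (sg M a β) c + (D t - nu M q s d0 D t a) * (sg M a β) a := by
        have l1 : ∑ c, nu M q s d0 D (t + 1) c * β c =
            ∑ c, (nu M q s d0 D t c * β c + 2 * cc M c a * β c * D t +
              (if c = a then (D t - nu M q s d0 D t a) * β a else 0)) := by
          apply Finset.sum_congr rfl
          intro c _
          rw [nu_succ, ← ha]
          by_cases hc : c = a
          · rw [if_pos hc, if_pos hc, hc, cc_self]
            ring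
          · rw [if_neg hc, if_neg hc]
            ring
        have l2 : ∑ c, nu M q s d0 D t c * (sg M a β) c =
            ∑ c, (nu M q s d0 D t c * β c + (if c = a then nu M q s d0 D t a * κ else 0)) := by
          apply Finset.sum_congr rfl
          intro c _
          rw [e3, Pi.add_apply, Pi.smul_apply, ee_apply, smul_eq_mul]
          by_cases hc : c = a
          · rw [if_pos hc, if_pos hc, hc]
            ring
          · rw [if_neg hc, if_neg hc]
            ring
        have l3 : (sg M a β) a = β a + κ := by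
          rw [e3, Pi.add_apply, Pi.smul_apply, ee_apply, smul_eq_mul, if_pos rfl, mul_one]
        rw [l1, l2, l3, Finset.sum_add_distrib, Finset.sum_add_distrib, Finset.sum_add_distrib,
          Finset.sum_ite_eq' Finset.univ a, Finset.sum_ite_eq' Finset.univ a,
          if_pos (Finset.mem_univ _), if_pos (Finset.mem_univ _), ← Finset.sum_mul, ← hκ]
        ring
      rw [e4, e1]
      rw [e1] at hgx
      by_cases hpos : 0 ≤ sg M a β
      · rw [e2] at hpos hgx ⊢
        have h3 := ih (cs.simple a * x) b hpos hgx
        have h4 : 0 ≤ (D t - nu M q s d0 D t a) * (geo cs (cs.simple a * x) (ee b)) a :=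
          mul_nonneg (by linarith) (hpos a)
        linarith
      · exfalso
        have hneg : sg M a β ≤ 0 := by
          rw [e2] at hpos ⊢
          exact (geo_dich _ _).resolve_left hpos
        have h3 : ∀ c, c ≠ a → β c = 0 := by
          intro c hc
          have h4 := hneg c
          rw [e3, Pi.add_apply, Pi.smul_apply, ee_apply, if_neg hc, smul_zero, add_zero] at h4
          exact le_antisymm h4 (hx c)
        have h4 : β = β a • ee a := by
          ext c
          rw [Pi.smul_apply, ee_apply, smul_eq_mul]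
          by_cases hc : c = a
          · rw [if_pos hc, hc, mul_one]
          · rw [if_neg hc, mul_zero, h3 c hc]
        have h5 : geo cs (gr cs q t) (sg M a β) = -(β a • geo cs (gr cs q t) (ee a)) := by
          conv_lhs => rw [h4]
          rw [map_smul, sg_ee_self, smul_neg, map_neg, map_smul]
        have h6 : 0 ≤ β a • geo cs (gr cs q t) (ee a) :=
          smul_nonneg (hx a) (geo_nonneg cs _ _ hin)
        rw [h5] at hgx
        have h7 : β a • geo cs (gr cs q t) (ee a) = 0 :=
          le_antisymm (neg_nonneg.mp hgx) h6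
        rw [smul_eq_zero] at h7
        rcases h7 with h7 | h7
        · rw [h7, zero_smul] at h4
          exact geo_ee_ne_zero cs x b h4
        · exact geo_ee_ne_zero cs _ _ h7
    · have e1 : gr cs q (t + 1) = gr cs q t := by
        unfold InG at hin
        rw [gr, if_neg hin]
      rw [e1] at hgx ⊢
      have hD := hG t hin
      refine (ih x b hx hgx).trans ?_
      apply Finset.sum_le_sum
      intro c _
      apply mul_le_mul_of_nonneg_right _ (hx c)
      rw [nu_succ]
      by_cases hc : c = q t
      · rw [if_pos hc, hD, neg_zero, hc]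
        rw [hD] at hν
        exact hν
      · rw [if_neg hc, hD, mul_zero, add_zero]

/-- (ROOT) -/
theorem root : Root := by
  intro B _ _ M W _ cs q n hq s d0 D _ hG h1 h2 t ht
  have h3 : geo cs (1 : W) (ee (q t)) = ee (q t) := by rw [map_one, Module.End.one_apply]
  have h := root_inv q hq s d0 D hG h1 h2 t 1 (q t) (by rw [h3]; exact ee_nonneg _)
    (by rw [h3]; exact geo_nonneg cs _ _ ht)
  rw [h3] at h
  refine h.trans ?_
  refine le_trans (le_of_eq ?_) (nu_le hq h1 h2 t)
  rw [Finset.sum_eq_single (q t)]
  · rw [ee_apply, if_pos rfl, mul_one]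
  · intro c _ hc
    rw [ee_apply, if_neg hc, mul_zero]
  · intro h; exact absurd (Finset.mem_univ _) h

end Pool.Agent.W296.MC
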