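import Pool.Agent.W296.MC.Greedy
import Pool.Agent.W296.MC.Root

/-!
# The core theorem on minimal non-faces
-/

set_option autoImplicit false

namespace Pool.Agent.W296.MC

open CoxeterSystem Pool.Agent.Helper741

section lists

variable {B : Type} {q : ℕ → B} {n : ℕ}

lemma per_mul (hq : Per q n) (t m : ℕ) : q (t + m * n) = q t := by
  induction m with
  | zero => simp
  | succ m ih => rw [Nat.succ_mul, ← add_assoc, hq.per, ih]

/-- the last letter sits at the end of the greedy matching -/
lemma q_en (hq : Per q n) {τ t : ℕ} {γ : List B} (h : γ ≠ []) (ht : en q τ γ = t + 1) :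
    q t = γ.getLast h := by
  rcases List.eq_nil_or_concat' γ with rfl | ⟨γ0, b, rfl⟩
  · exact absurd rfl h
  · rw [en_concat] at ht
    have : t = nf q (en q τ γ0) b := by omega
    rw [this, q_nf hq]
    simp

lemma gp_prefix (γ : List B) : ∀ (τ g : ℕ), g ∈ gp q τ γ →
    ∃ γ1 γ2 : List B, γ = γ1 ++ γ2 ∧ γ1 ≠ [] ∧ en q τ γ1 = g + 1 := by
  induction γ with
  | nil => intro τ g h; simp [gp] at h
  | cons b γ ih =>
    intro τ g h
    rw [gp, List.mem_cons] at h
    rcases h with h | h
    · exact ⟨[b], γ, rfl, by simp, by rw [h]; rfl⟩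
    · obtain ⟨γ1, γ2, h1, h2, h3⟩ := ih _ _ h
      exact ⟨b :: γ1, γ2, by rw [h1]; rfl, by simp, by rw [en_cons]; exact h3⟩

lemma sorted_sub {L K : List ℕ} (hL : L.Pairwise (· < ·)) (hK : K.Pairwise (· < ·))
    (h : ∀ x ∈ L, x ∈ K) : L.Sublist K := by
  have h1 : L.Nodup := hL.imp (fun h => ne_of_lt h)
  have h2 : L.Subperm K := List.subperm_of_subset h1 h
  exact List.sublist_of_subperm_of_pairwise (r := (· ≤ ·)) h2 (hL.imp (fun h => le_of_lt h))
    (hK.imp (fun h => le_of_lt h))

lemma sort_lt (S : Finset ℕ) : (S.sort (· ≤ ·)).Pairwise (· < ·) := S.sortedLT_sort.pairwise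

lemma sort_of_sorted {L : List ℕ} (hL : L.Pairwise (· < ·)) :
    L.toFinset.sort (· ≤ ·) = L :=
  (List.toFinset_sort (· ≤ ·) (hL.imp (fun h => ne_of_lt h))).mpr (hL.imp (fun h => le_of_lt h))

end lists

variable {B : Type} [Fintype B] [DecidableEq B] {M : CoxeterMatrix B} {W : Type} [Group W]
  {cs : CoxeterSystem M W}

/-- labels are finite -/
lemma M_ne_zero {w0 : W} (hw0 : ∀ w, cs.length w ≤ cs.length w0) (a b : B) : M a b ≠ 0 := by
  intro h
  have hab : a ≠ b := by
    rintro rfl
    rw [M.diagonal] at h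
    exact one_ne_zero h
  have h1 := isReduced_alternatingWord cs hab (k := cs.length w0 + 1) (Or.inl h)
  have h2 := h1.eq
  rw [length_alternatingWord] at h2
  have := hw0 (cs.wordProd (alternatingWord a b (cs.length w0 + 1)))
  omega

/-- (U5) -/
theorem U5 (hM : ∀ a b, M a b ≠ 0) (hW : Weight) {w0 : W}
    (hw0 : ∀ w, cs.length w ≤ cs.length w0) {q : ℕ → B} {n : ℕ} (hq : Per q n) (a : B) :
    ∃ φ : List (Vx B) → ℝ, ∃ p, Harm M φ ∧ φ p ≠ 0 ∧
      ¬ (wd p).Sublist (rword cs (w0 * cs.simple a)) := by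
  obtain ⟨s, hs⟩ := longest_conj hw0 a
  have hsw : cs.simple s * w0 = w0 * cs.simple a := by
    rw [← hs, mul_assoc, longest_sq hw0, mul_one]
  obtain ⟨τ0, -, -, hτ0⟩ := hq.ex 0 s
  set q' : ℕ → B := fun t => q (t + τ0) with hq'def
  have hq' : Per q' n := by
    refine ⟨fun t => ?_, fun t b => ?_, fun t t' h1 h2 => ?_⟩
    · show q (t + n + τ0) = q (t + τ0)
      rw [← hq.per (t + τ0)]
      congr 1
      omega
    · obtain ⟨t', h1, h2, h3⟩ := hq.ex (t + τ0) b
      refine ⟨t' - τ0, by omega, by omega, ?_⟩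
      show q (t' - τ0 + τ0) = b
      rw [← h3]
      congr 1
      omega
    · exact hq.uniq _ _ (by omega) (by omega)
  have hq0 : q' 0 = s := by
    show q (0 + τ0) = s
    rw [zero_add]; exact hτ0
  have hG0 : InG cs q' 0 := by
    show cs.length (1 : W) < cs.length (1 * cs.simple (q' 0))
    rw [one_mul, cs.length_one, cs.length_simple]
    exact one_pos
  obtain ⟨t, ht1, ht2, ht3⟩ := exists_last hM hw0 hq' a
  set T := max (t + 1) (cs.length w0 * n) with hT
  have hTt : t + 1 ≤ T := le_max_left _ _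
  have hTw : gr cs q' T = w0 := gr_w0 hw0 (exists_gr_w0 hw0 hq') (le_max_right _ _)
  -- the root of the last position of `a`
  set r := geo cs (gr cs q' t) (ee a) with hr
  set v := geo cs w0 (ee a) with hv
  have hle : -r ≤ v := by
    have h1 := tele hM (cs := cs) (q := q') (a := a) hTt (fun t' h1 _ h3 h4 => by
      have := ht3 t' h3 h4
      omega)
    rw [hTw] at h1
    refine le_trans (le_of_eq ?_) h1
    rw [gr_succ_pos cs ht1, ht2, map_mul, Module.End.mul_apply, geo_simple, sg_ee_self, map_neg]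
  have hvneg : v ≤ 0 := longest_neg hw0 (ee a) (ee_nonneg a)
  have hvs : sg M s v = -v := by
    have h1 : geo cs (cs.simple s * w0) (ee a) = geo cs (w0 * cs.simple a) (ee a) := by rw [hsw]
    rw [map_mul, map_mul, Module.End.mul_apply, Module.End.mul_apply, geo_simple, geo_simple,
      sg_ee_self, map_neg] at h1
    exact h1
  have hvc : ∀ c, c ≠ s → v c = 0 := by
    intro c hc
    have h1 := congrFun hvs c
    rw [sg_coord, Pi.add_apply, Pi.smul_apply, ee_apply, if_neg hc, smul_zero, add_zero,
      Pi.neg_apply] at h1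
    linarith
  have hvs' : v s < 0 := by
    rcases lt_or_eq_of_le (hvneg s) with h1 | h1
    · exact h1
    · exfalso
      apply geo_ee_ne_zero cs w0 a
      funext c
      by_cases hc : c = s
      · rw [hc]; exact h1
      · exact hvc c hc
  have hrs : 0 < (geo cs (gr cs q' t) (ee (q' t))) s := by
    rw [ht2]
    have := hle s
    rw [Pi.neg_apply] at this
    show 0 < r s
    linarith
  obtain ⟨φ, u, p, hφ, hp, hus, hen⟩ := G2 cs hM hW root hq' ht1 hrs
  -- the greedy word without its first letter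
  obtain ⟨L, hL⟩ : ∃ L, gl cs q' T = 0 :: L := by
    have h0 : 0 ∈ gl cs q' T := mem_gl.mpr ⟨by omega, hG0⟩
    have hs := gl_sorted (cs := cs) (q := q') (T := T)
    cases hgl : gl cs q' T with
    | nil => rw [hgl] at h0; simp at h0
    | cons x L =>
      rw [hgl] at h0 hs
      rw [List.mem_cons] at h0
      rcases h0 with h0 | h0
      · exact ⟨L, by rw [← h0]⟩
      · exfalso
        rw [List.pairwise_cons] at hs
        have := hs.1 0 h0
        omega
  have hsort := gl_sorted (cs := cs) (q := q') (T := T)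
  rw [hL, List.pairwise_cons] at hsort
  have hred := gl_reduced (cs := cs) q' T
  have hprod := gl_prod (cs := cs) q' T
  rw [hL, List.map_cons] at hred hprod
  rw [hTw, cs.wordProd_cons, hq0] at hprod
  have hred' : cs.IsReduced (L.map q') := by simpa using hred.drop 1
  have hprod' : cs.wordProd (L.map q') = w0 * cs.simple a := by
    rw [← hsw, ← hprod, cs.simple_mul_simple_cancel_left]
  have hAn : An M (L.map q') = An M (rword cs (w0 * cs.simple a)) :=
    An_reduced cs hM hred' (rword_reduced cs _) (by rw [hprod', rword_prod])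
  by_contra hcon
  push Not at hcon
  have h1 : φ ∈ An M (L.map q') := by
    rw [hAn]
    refine ⟨hφ, fun p' hp' => ?_⟩
    by_contra h2
    exact hp' (hcon φ p' hφ h2)
  have h2 : (wd (u :: p)).Sublist (L.map q') := by
    by_contra h3
    exact hp (h1.2 _ h3)
  obtain ⟨L', h3, h4⟩ := List.sublist_map_iff.mp h2
  have hL'ne : L' ≠ [] := by
    rintro rfl
    simp at h4
  have hL'mem : ∀ x ∈ L', 0 < x ∧ InG cs q' x := by
    intro x hx
    have hx' := h3.subset hx
    refine ⟨hsort.1 x hx', ?_⟩
    have : x ∈ gl cs q' T := by rw [hL]; exact List.mem_cons_of_mem _ hx'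
    exact (mem_gl.mp this).2
  have h5 := en_le_of_pos hq' L' 1 (hsort.2.sublist h3) (fun x hx => (hL'mem x hx).1) hL'ne
  rw [← h4, wd_cons, hus, en_cons] at h5
  rw [wd_cons, hus, en_cons] at hen
  have h6 : nf q' 0 s = 0 := by
    have := nf_self hq' 0
    rwa [hq0] at this
  have h7 : nf q' 1 s = n := by
    have := nf_succ hq' 0
    rw [hq0] at this
    rw [zero_add, zero_add] at this
    exact this
  rw [h6] at hen
  rw [h7, add_comm n 1, en_add hq'] at h5
  rw [zero_add] at hen
  rw [hen] at h5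
  have hn := n_pos hq'
  have h8 : q' (L'.getLast hL'ne) = a := by
    have e1 : q' t = (wd (u :: p)).getLast (by simp) := by
      apply q_en hq' (τ := 0) (by simp)
      rw [wd_cons, hus, en_cons, h6]
      exact hen
    rw [← ht2, e1]
    simp only [h4]
    rw [List.getLast_map]
  have h9 := ht3 _ (hL'mem _ (List.getLast_mem hL'ne)).2 h8
  omega

omit [Fintype B] [DecidableEq B] in
lemma Face_mono {q : ℕ → B} {n k : ℕ} {w0 : W} {I I' : Finset ℕ} (h : I' ⊆ I)
    (hF : Face cs q n k w0 I) : Face cs q n k w0 I' := by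
  obtain ⟨J, h1, h2, h3, h4⟩ := hF
  exact ⟨J, h1, Finset.disjoint_of_subset_left h h2, h3, h4⟩

lemma sortable_iter (hM : ∀ a b, M a b ≠ 0) (hW : Weight) {q : ℕ → B} {n : ℕ}
    (hq : Per q n) (m : ℕ) : ∀ {t : ℕ}, InG cs q t → m * n ≤ t → InG cs q (t - m * n) := by
  induction m with
  | zero => intro t ht _; simpa using ht
  | succ m ih =>
    intro t ht h
    rw [Nat.succ_mul] at h
    have h1 := ih ht (by omega)
    have h2 := sortable hM hW root hq h1 (by omega)
    have : t - (m + 1) * n = t - m * n - n := by rw [Nat.succ_mul]; omega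
    rw [this]; exact h2

/-- the core theorem from (SKIP) and (WEIGHT) -/
theorem core_of (hW : Weight) (hS : Skip) : Core := by
  classical
  intro B _ _ M W _ _ cs q n hq w0 hw0 k I hI hnf hmin
  have hM : ∀ a b, M a b ≠ 0 := M_ne_zero hw0
  -- the finite set of positions
  set T := cs.length w0 * n with hT
  have hTw : gr cs q T = w0 := exists_gr_w0 hw0 hq
  have hlt : ∀ t, InG cs q t → t < T := by
    intro t ht
    by_contra h
    exact not_InG_w0 hw0 (gr_w0 hw0 hTw (by omega)) ht
  set QF := (Finset.range (k * n + T)).filter (fun τ => InQ cs q n k τ) with hQF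
  have hmemQ : ∀ τ, τ ∈ QF ↔ InQ cs q n k τ := by
    intro τ
    rw [hQF, Finset.mem_filter, Finset.mem_range]
    constructor
    · exact fun h => h.2
    · intro h
      refine ⟨?_, h⟩
      rcases h with h | ⟨t, h1, h2⟩
      · omega
      · have := hlt t h2
        omega
  set J := QF \ I with hJ
  set wJ := (J.sort (· ≤ ·)).map q with hwJ
  -- (i)
  have hdem : dem cs wJ ≠ w0 := by
    intro hd
    obtain ⟨R, h1, h2, h3⟩ := exists_sub_dem cs wJ
    rw [hd] at h3
    obtain ⟨L, h4, h5⟩ := List.sublist_map_iff.mp h1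
    have hLs : L.Pairwise (· < ·) := (sort_lt J).sublist h4
    have hmem : ∀ x ∈ L.toFinset, x ∈ J := by
      intro x hx
      rw [List.mem_toFinset] at hx
      have := h4.subset hx
      rwa [Finset.mem_sort] at this
    apply hnf
    refine ⟨L.toFinset, ?_, ?_, ?_, ?_⟩
    · intro x hx
      have := hmem x hx
      rw [hJ, Finset.mem_sdiff] at this
      exact (hmemQ x).mp this.1
    · rw [Finset.disjoint_left]
      intro x hx hx'
      have := hmem x hx'
      rw [hJ, Finset.mem_sdiff] at this
      exact this.2 hx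
    · rw [sort_of_sorted hLs, ← h5, h3]
    · rw [List.toFinset_card_of_nodup (hLs.imp (fun h => ne_of_lt h))]
      have h6 := h2.eq
      rw [h3, h5, List.length_map] at h6
      exact h6.symm
  -- (ii)
  obtain ⟨a, ha⟩ := exists_ascent hw0 hdem
  have hAnJ : An M wJ ⊆ An M (rword cs (w0 * cs.simple a)) := by
    rw [An_dem cs hM wJ]
    exact An_le_w0a hM hw0 ha
  -- (iii)
  obtain ⟨φ, p, hφ, hp, hpa⟩ := U5 (cs := cs) hM hW hw0 hq a
  obtain ⟨t, ht1, ht2, ht3, ht4⟩ := U4 hM hw0 hq hφ hp hpa
  set φ' := rst (fun r : List (Vx B) => en q 0 (wd r) = t + 1) φ with hφ'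
  have hφ'h : Harm M φ' := hφ.restrict (hom_en hq _)
  obtain ⟨p', hp'1, hp'2⟩ : ∃ p', ¬ (wd p').Sublist wJ ∧ φ' p' ≠ 0 := by
    by_contra hcon
    push Not at hcon
    have h1 : φ' ∈ An M wJ := ⟨hφ'h, hcon⟩
    have h2 := (hAnJ h1).2 p hpa
    rw [hφ', rst_pos ht1] at h2
    exact hp h2
  obtain ⟨hp'3, hp'4⟩ := rst_ne hp'2
  have hpath : IsPath M p' := by
    by_contra h
    exact hp'4 (hφ.1 p' h)
  have hp'ne : p' ≠ [] := hpath.1
  -- (iv)
  have hgpG : ∀ g ∈ gp q 0 (wd p'), InG cs q g := by
    intro g hg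
    obtain ⟨γ1, γ2, h1, h2, h3⟩ := gp_prefix _ _ _ hg
    obtain ⟨p1, p2, h4, h5, h6⟩ := List.map_eq_append_iff.mp h1
    have h7 : p1 ≠ [] := by
      rintro rfl
      exact h2 h5.symm
    have h8 : shr p2 φ p1 ≠ 0 := by
      rw [shr_of_ne _ _ h7, ← h4]; exact hp'4
    apply G1 hM hq (hφ.shr p2) h8
    have : wd p1 = γ1 := h5
    rw [this]; exact h3
  -- (v)
  rcases hS B q n hq (wd p') I k with ⟨L, hL1, hL2, hL3⟩ | ⟨I', hI'1, hI'2, hI'3⟩
  · exfalso
    apply hp'1
    rw [← hL2, hwJ]
    apply List.Sublist.map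
    apply sorted_sub hL1 (sort_lt J)
    intro x hx
    obtain ⟨hxI, g, hg, η, hη, hxg⟩ := hL3 x hx
    rw [Finset.mem_sort, hJ, Finset.mem_sdiff]
    refine ⟨?_, hxI⟩
    rw [hmemQ]
    by_cases hxk : x < k * n
    · exact Or.inl hxk
    · right
      obtain ⟨m, rfl⟩ : ∃ m, k = η + m := ⟨k - η, by omega⟩
      rw [add_mul] at hxk ⊢
      refine ⟨g - m * n, by omega, ?_⟩
      exact sortable_iter hM hW hq m (hgpG g hg) (by omega)
  · have hnf' : ¬ Face cs q n k w0 I' := by
      rintro ⟨J1, hJ1, hJ2, hJ3, hJ4⟩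
      have hred : cs.IsReduced ((J1.sort (· ≤ ·)).map q) := by
        unfold CoxeterSystem.IsReduced
        rw [hJ3, List.length_map, Finset.length_sort, hJ4]
      have h1 := top_w0 hM hw0 hred hJ3 hφ
      have h2 : (wd p').Sublist ((J1.sort (· ≤ ·)).map q) := by
        by_contra h3
        exact hp'4 (h1.2 _ h3)
      obtain ⟨L, h3, h4⟩ := List.sublist_map_iff.mp h2
      have hLne : L ≠ [] := by
        rintro rfl
        have := congrArg List.length h4
        simp at this
        exact hp'ne this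
      have hLmem : ∀ x ∈ L, x ∈ J1 := by
        intro x hx
        have := h3.subset hx
        rwa [Finset.mem_sort] at this
      have h5 := hI'3 L ((sort_lt J1).sublist h3) h4.symm (fun x hx hx' =>
        Finset.disjoint_left.mp hJ2 hx' (hLmem x hx)) hLne
      rw [hp'3] at h5
      set x := L.getLast hLne with hx
      have hn := n_pos hq
      have h6 : (k + 1) * n = k * n + n := by ring
      rw [h6] at h5
      rcases hJ1 x (hLmem x (List.getLast_mem hLne)) with h7 | ⟨t', h7, h8⟩
      · omega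
      · have h9 : q t' = a := by
          have hwne : wd p' ≠ [] := by
            intro h
            have := congrArg List.length h
            simp at this
            exact hp'ne this
          have e1 : q t = (wd p').getLast hwne := q_en hq hwne hp'3
          have e2 : q x = q t' := by rw [h7, add_comm, per_mul hq]
          rw [← e2, ← ht2, e1, hx]
          simp only [h4]
          rw [List.getLast_map]
        have := ht4 t' h9 h8
        omega
    have hII : I = I' := by
      by_contra hne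
      obtain ⟨x, hx1, hx2⟩ : ∃ x ∈ I, x ∉ I' := by
        by_contra hcon
        push Not at hcon
        exact hne (Finset.Subset.antisymm hcon hI'1)
      apply hnf'
      apply Face_mono _ (hmin x hx1)
      intro y hy
      rw [Finset.mem_erase]
      refine ⟨?_, hI'1 hy⟩
      rintro rfl
      exact hx2 hy
    rw [hII, hI'2]

end Pool.Agent.W296.MC
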