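import Pool.Agent.W296.MC.Basic

/-!
# The braid relation for annihilators
-/

set_option autoImplicit false

namespace Pool.Agent.W296.MC

open Pool.Agent.Helper741

variable {B : Type} [DecidableEq B] {M : CoxeterMatrix B}

/-- sign of a Boolean -/
def sgn (e : Bool) : ℤ := if e then 1 else -1

/-- the other letter -/
def oth (a b c : B) : B := if c = a then b else a

/-- alternating path with given signs -/
def seg (a b : B) : Vx B → List Bool → List (Vx B)
  | v, [] => [v]
  | v, (e :: σ) => v :: seg a b (nb v (oth a b v.1) (sgn e)) σ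

lemma oth_ne {a b c : B} (hab : a ≠ b) : oth a b c ≠ c := by
  unfold oth
  split_ifs with h
  · rw [h]; exact hab.symm
  · exact fun h' => h h'.symm

lemma oth_mem (a b c : B) : oth a b c = a ∨ oth a b c = b := by
  unfold oth
  split_ifs with h
  · right; rfl
  · left; rfl

lemma oth_oth {a b c : B} (hab : a ≠ b) (hc : c = a ∨ c = b) : oth a b (oth a b c) = c := by
  unfold oth
  rcases hc with rfl | rfl
  · simp [hab.symm]
  · simp [hab.symm]

lemma oth_eq {a b c d : B} (hc : c = a ∨ c = b) (hd : d = a ∨ d = b) (h : d ≠ c) :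
    d = oth a b c := by
  unfold oth
  rcases hc with rfl | rfl <;> rcases hd with rfl | rfl <;> simp_all

lemma sym_oth {a b c : B} (hc : c = a ∨ c = b) : s(c, oth a b c) = s(a, b) := by
  unfold oth
  rcases hc with rfl | rfl
  · simp
  · by_cases h : c = a
    · simp [h]
    · simp [h, Sym2.eq_swap]

lemma stp_apply_same (a b : B) (ε : ℤ) (x : Sym2 B → ℤ) : stp a b ε x s(a, b) = x s(a, b) + ε := by
  unfold stp; simp

lemma stp_comm (a b : B) (ε : ℤ) (x : Sym2 B → ℤ) : stp a b ε x = stp b a ε x := by
  unfold stp; rw [Sym2.eq_swap]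

lemma stp_stp (a b : B) (ε δ : ℤ) (x : Sym2 B → ℤ) :
    stp a b ε (stp a b δ x) = stp a b (ε + δ) x := by
  unfold stp
  simp [add_assoc, add_comm δ ε]

lemma stp_zero (a b : B) (x : Sym2 B → ℤ) : stp a b 0 x = x := by
  unfold stp
  simp

/-- stepping forth and back -/
lemma nb_nb (a b : B) (hab : a ≠ b) (v : Vx B) (hv : v.1 = a ∨ v.1 = b) (e : Bool) :
    nb (nb v (oth a b v.1) (sgn e)) (oth a b (nb v (oth a b v.1) (sgn e)).1) (sgn (!e)) = v := by
  have h1 : (nb v (oth a b v.1) (sgn e)).1 = oth a b v.1 := rfl
  rw [h1, oth_oth hab hv]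
  unfold nb
  ext1
  · rfl
  · show stp (oth a b v.1) v.1 (sgn (!e)) (stp v.1 (oth a b v.1) (sgn e) v.2) = v.2
    rw [stp_comm, stp_stp]
    have : sgn (!e) + sgn e = 0 := by cases e <;> simp [sgn]
    rw [this, stp_zero]

lemma seg_head (a b : B) (v : Vx B) (σ : List Bool) : ∃ S, seg a b v σ = v :: S := by
  cases σ with
  | nil => exact ⟨[], rfl⟩
  | cons e σ => exact ⟨_, rfl⟩

lemma seg_length (a b : B) (v : Vx B) (σ : List Bool) : (seg a b v σ).length = σ.length + 1 := by
  induction σ generalizing v with
  | nil => rfl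
  | cons e σ ih => rw [seg, List.length_cons, ih, List.length_cons]

/-- swap relation for functions on paths -/
def Swp (M : CoxeterMatrix B) (a b : B) (φ : List (Vx B) → ℝ) : Prop :=
  (∀ p, ¬ IsPath M p → φ p = 0) ∧
  ∀ (P : List (Vx B)) (v : Vx B) (S : List (Vx B)), (v.1 = a ∨ v.1 = b) →
    φ (P ++ v :: nb v (oth a b v.1) 1 :: v :: S) + φ (P ++ v :: nb v (oth a b v.1) (-1) :: v :: S)
      = 0

/-- permuting the signs does not matter -/
lemma seg_perm {a b : B} (hab : a ≠ b) {φ : List (Vx B) → ℝ} (hφ : Swp M a b φ)
    {σ σ' : List Bool} (h : σ.Perm σ') : ∀ (P : List (Vx B)) (v : Vx B), (v.1 = a ∨ v.1 = b) →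
    φ (P ++ seg a b v σ) = 0 → φ (P ++ seg a b v σ') = 0 := by
  induction h with
  | nil => intro P v _ h; exact h
  | cons e _ ih =>
    intro P v hv h
    have := ih (P ++ [v]) (nb v (oth a b v.1) (sgn e)) (by exact oth_mem a b v.1)
    simp only [seg, List.append_assoc, List.singleton_append] at this h ⊢
    exact this h
  | swap e e' l =>
    intro P v hv h
    by_cases hee : e = e'
    · subst hee; exact h
    · have he : e' = !e := by cases e <;> cases e' <;> simp_all
      subst he
      obtain ⟨S, hS⟩ := seg_head a b v l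
      have h1 : seg a b v (e :: (!e) :: l) = v :: nb v (oth a b v.1) (sgn e) :: v :: S := by
        rw [seg, seg, nb_nb a b hab v hv, hS]
      have h2 : seg a b v ((!e) :: e :: l) = v :: nb v (oth a b v.1) (sgn (!e)) :: v :: S := by
        rw [seg, seg]
        have := nb_nb a b hab v hv (!e)
        rw [Bool.not_not] at this
        rw [this, hS]
      rw [h2] at h
      rw [h1]
      have h3 := hφ.2 P v S hv
      cases e
      · simp only [sgn, Bool.not_false, if_true] at h h3 ⊢
        simp only [Bool.false_eq_true, if_false]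
        linarith
      · simp only [sgn, Bool.not_true, if_true] at h h3 ⊢
        simp only [Bool.false_eq_true, if_false] at h
        linarith
  | trans _ _ ih1 ih2 =>
    intro P v hv h
    exact ih2 P v hv (ih1 P v hv h)

/-- going straight out of range -/
lemma seg_out {a b : B} (hab : a ≠ b) {φ : List (Vx B) → ℝ} (hφ : Swp M a b φ) (e : Bool)
    (k : ℕ) (σ : List Bool) : ∀ (P : List (Vx B)) (v : Vx B), (v.1 = a ∨ v.1 = b) →
    ¬ (0 ≤ v.2 s(a, b) + sgn e * k ∧ v.2 s(a, b) + sgn e * k + 2 ≤ (M a b : ℤ)) →
    φ (P ++ seg a b v (List.replicate k e ++ σ)) = 0 := by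
  induction k with
  | zero =>
    intro P v hv h
    apply hφ.1
    intro hp
    apply h
    obtain ⟨S, hS⟩ := seg_head a b v (List.replicate 0 e ++ σ)
    rw [hS] at hp
    have := hp.2.1 v (by simp) a b hab
    simpa using this
  | succ k ih =>
    intro P v hv h
    rw [List.replicate_succ, List.cons_append, seg]
    have := ih (P ++ [v]) (nb v (oth a b v.1) (sgn e)) (by exact oth_mem a b v.1)
    rw [List.append_assoc, List.singleton_append] at this
    apply this
    have h1 : (nb v (oth a b v.1) (sgn e)).2 s(a, b) = v.2 s(a, b) + sgn e := by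
      unfold nb
      show stp v.1 (oth a b v.1) (sgn e) v.2 s(a, b) = _
      rw [← sym_oth hv, stp_apply_same]
    rw [h1]
    push_cast at h
    have h2 : v.2 s(a, b) + sgn e + sgn e * k = v.2 s(a, b) + sgn e * (k + 1) := by ring
    rw [h2]
    exact h

lemma perm_bool (σ : List Bool) (e : Bool) :
    σ.Perm (List.replicate (σ.count e) e ++ List.replicate (σ.count (!e)) (!e)) := by
  rw [List.perm_iff_count]
  intro c
  rw [List.count_append, List.count_replicate, List.count_replicate]
  by_cases h : c = e
  · subst h; simp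
  · have : c = !e := by cases e <;> cases c <;> simp_all
    subst this
    simp

/-- long alternating paths vanish -/
lemma seg_vanish {a b : B} (hab : a ≠ b) {φ : List (Vx B) → ℝ} (hφ : Swp M a b φ)
    (σ : List Bool) (hσ : (M a b : ℤ) ≤ σ.length + 1) (P : List (Vx B)) (v : Vx B)
    (hv : v.1 = a ∨ v.1 = b) : φ (P ++ seg a b v σ) = 0 := by
  have hc : σ.count true + σ.count false = σ.length := by
    have := List.length_eq_countP_add_countP (fun x => x == true) (l := σ)
    rw [List.count, List.count, this]
    congr 1
    apply List.countP_congr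
    intro x _
    cases x <;> simp
  by_cases h : v.2 s(a, b) < (σ.count false : ℤ)
  · apply seg_perm hab hφ (perm_bool σ false).symm P v hv
    apply seg_out hab hφ _ _ _ P v hv
    simp only [sgn, Bool.false_eq_true, if_false]
    omega
  · apply seg_perm hab hφ (perm_bool σ true).symm P v hv
    apply seg_out hab hφ _ _ _ P v hv
    simp only [sgn, if_true]
    omega

/-- a path with letters `a`, `b` is a segment -/
lemma eq_seg {a b : B} (p : List (Vx B)) : ∀ (v : Vx B), IsPath M (v :: p) →
    (∀ w ∈ v :: p, w.1 = a ∨ w.1 = b) → ∃ σ, v :: p = seg a b v σ := by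
  induction p with
  | nil => intro v _ _; exact ⟨[], rfl⟩
  | cons w p ih =>
    intro v h1 h2
    obtain ⟨σ, hσ⟩ := ih w (h1.tail (by simp)) (fun x hx => h2 x (List.mem_cons_of_mem _ hx))
    have h3 := h1.2.2
    rw [List.isChain_cons_cons] at h3
    obtain ⟨⟨h4, h5⟩, -⟩ := h3
    have h6 : w.1 = oth a b v.1 := oth_eq (h2 v (by simp)) (h2 w (by simp)) h4.symm
    rcases h5 with h5 | h5
    · refine ⟨true :: σ, ?_⟩
      rw [hσ, seg]
      rw [← h6]
      simp only [sgn, if_true]
      rw [← h5]
    · refine ⟨false :: σ, ?_⟩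
      rw [hσ, seg]
      rw [← h6]
      simp only [sgn, Bool.false_eq_true, if_false]
      rw [← h5]

/-- sub-words of an alternating word which are alternating and shorter -/
lemma alt_sub (m : ℕ) : ∀ (a b : B) (w : List B), w.IsChain (· ≠ ·) →
    (∀ c ∈ w, c = a ∨ c = b) → w.length ≤ m → (w.head? = some a ∨ w.length + 1 ≤ m ∨ w = []) →
    w.Sublist (aw a b m) := by
  induction m with
  | zero =>
    intro a b w _ _ h _
    have : w = [] := List.length_eq_zero_iff.mp (by omega)
    rw [this]; exact List.nil_sublist _
  | succ m ih =>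
    intro a b w hc hm hl h
    rw [aw_succ]
    cases w with
    | nil => exact List.nil_sublist _
    | cons c w =>
      by_cases hca : c = a
      · subst hca
        rw [List.cons_sublist_cons]
        rw [List.isChain_cons] at hc
        apply ih b c w hc.2 (fun x hx => (hm x (List.mem_cons_of_mem _ hx)).symm)
          (by simpa using hl)
        cases w with
        | nil => right; right; rfl
        | cons d w =>
          left
          have h1 := hc.1 d (by simp)
          rcases hm d (by simp) with h2 | h2
          · exact absurd h2.symm h1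
          · rw [h2]; rfl
      · apply List.Sublist.cons
        have hcb : c = b := (hm c (by simp)).resolve_left hca
        apply ih b a (c :: w) hc (fun x hx => (hm x hx).symm)
        · rcases h with h | h | h
          · simp at h; exact absurd h hca
          · omega
          · simp at h
        · left; rw [hcb]; rfl

lemma aw_mem (a b : B) (m : ℕ) : ∀ c ∈ aw a b m, c = a ∨ c = b := by
  induction m generalizing a b with
  | zero => intro c hc; simp [aw] at hc
  | succ m ih =>
    intro c hc
    rw [aw_succ, List.mem_cons] at hc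
    rcases hc with h | h
    · left; exact h
    · exact (ih b a c h).symm

omit [DecidableEq B] in
lemma wd_chain [DecidableEq B] {p : List (Vx B)} (hp : IsPath M p) : (wd p).IsChain (· ≠ ·) := by
  unfold wd
  rw [List.isChain_map]
  exact hp.2.2.imp (fun _ _ h => h.1)

variable [Fintype B]

lemma An_braid {a b : B} (hab : a ≠ b) (hm : M a b ≠ 0) :
    An M (aw a b (M a b)) ⊆ An M (aw b a (M a b)) := by
  rintro φ ⟨h1, h2⟩
  refine ⟨h1, fun p hp => ?_⟩
  by_cases hpath : IsPath M p
  swap
  · exact h1.1 p hpath
  by_cases h3 : (wd p).Sublist (aw a b (M a b))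
  swap
  · exact h2 p h3
  have hmem : ∀ c ∈ wd p, c = a ∨ c = b := fun c hc => aw_mem a b _ c (h3.subset hc)
  have hlen : p.length = M a b := by
    have h4 := h3.length_le
    rw [aw_length, wd_length] at h4
    by_contra h5
    apply hp
    apply alt_sub _ b a (wd p) (wd_chain hpath) (fun c hc => (hmem c hc).symm)
    · rw [wd_length]; omega
    · right; left
      rw [wd_length]; omega
  -- restrict to paths of this length
  set ψ := rst (fun p : List (Vx B) => p.length = M a b) φ with hψ
  have hψh : Harm M ψ := h1.restrict (hom_length _)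
  have hψ0 : ∀ r, ¬ (∀ c ∈ wd r, c = a ∨ c = b) → ψ r = 0 := by
    intro r hr
    by_cases h5 : r.length = M a b
    · rw [hψ, rst_pos h5]
      apply h2
      intro h6
      exact hr (fun c hc => aw_mem a b _ c (h6.subset hc))
    · rw [hψ, rst_neg h5]
  have hswp : Swp M a b ψ := by
    refine ⟨hψh.1, fun P v S hv => ?_⟩
    have h5 := hψh.2 P v S
    rw [Finset.sum_eq_single (oth a b v.1)] at h5
    · exact h5
    · intro c _ hc
      by_cases hcv : c = v.1
      · rw [hψh.eq_zero_of_eq P v _ _ (by rw [hcv]; rfl), hψh.eq_zero_of_eq P v _ _ (by rw [hcv]; rfl),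
          add_zero]
      · have hcab : ¬ (c = a ∨ c = b) := fun h6 => hc (oth_eq hv h6 hcv)
        rw [hψ0, hψ0, add_zero]
        · intro h6
          apply hcab
          apply h6
          rw [wd_append, wd_cons, wd_cons]
          simp [nb]
        · intro h6
          apply hcab
          apply h6
          rw [wd_append, wd_cons, wd_cons]
          simp [nb]
    · intro h6
      exact absurd (Finset.mem_univ _) h6
  have hp0 : p ≠ [] := hpath.1
  obtain ⟨v, p', rfl⟩ := List.exists_cons_of_ne_nil hp0
  obtain ⟨σ, hσ⟩ := eq_seg (a := a) (b := b) p' v hpath (by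
    intro w hw
    apply hmem
    unfold wd
    exact List.mem_map_of_mem hw)
  have h7 : ψ (v :: p') = φ (v :: p') := by rw [hψ, rst_pos hlen]
  rw [← h7, hσ]
  have h8 := seg_vanish hab hswp σ (by
    have := seg_length a b v σ
    rw [← hσ, hlen] at this
    omega) [] v (hmem v.1 (by simp))
  simpa using h8

end Pool.Agent.W296.MC
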