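import Pool.Agent.W296.MC.Iface
import Pool.Agent.W296.MC.Braid

/-!
# The weights (WEIGHT)
-/

set_option autoImplicit false

namespace Pool.Agent.W296.MC

open Pool.Agent.Helper741

variable {B : Type} [Fintype B] [DecidableEq B] {M : CoxeterMatrix B}

lemma mem_RS (x : Sym2 B → ℤ) : x ∈ RS M ↔ InR M x ∧ ∀ a, x s(a, a) = 0 := by
  unfold RS
  rw [Fintype.mem_piFinset]
  constructor
  · intro h
    refine ⟨fun a b hab => ?_, fun a => ?_⟩
    · have h1 := h s(a, b)
      rw [if_neg (by rw [Sym2.mk_isDiag_iff]; exact hab), Finset.mem_Icc] at h1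
      have h2 : (Me M s(a, b) : ℤ) = (M a b : ℤ) := rfl
      omega
    · have h1 := h s(a, a)
      rw [if_pos (by rw [Sym2.mk_isDiag_iff]), Finset.mem_singleton] at h1
      exact h1
  · rintro ⟨h1, h2⟩ e
    induction e using Sym2.ind with
    | _ a b =>
      by_cases hab : a = b
      · subst hab
        rw [if_pos (by rw [Sym2.mk_isDiag_iff]), Finset.mem_singleton]
        exact h2 a
      · rw [if_neg (by rw [Sym2.mk_isDiag_iff]; exact hab), Finset.mem_Icc]
        have h3 := h1 a b hab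
        have h4 : (Me M s(a, b) : ℤ) = (M a b : ℤ) := rfl
        omega

lemma sin_pos' {m : ℕ} {z : ℤ} (h1 : 0 ≤ z) (h2 : z + 2 ≤ (m : ℤ)) :
    0 < Real.sin (Real.pi * (z + 1) / (m : ℝ)) := by
  have hm : (0 : ℝ) < m := by
    have : (0 : ℤ) < m := by omega
    exact_mod_cast this
  have h1' : (0 : ℝ) ≤ z := by exact_mod_cast h1
  have h2' : (z : ℝ) + 2 ≤ m := by exact_mod_cast h2
  have hpi := Real.pi_pos
  apply Real.sin_pos_of_pos_of_lt_pi
  · positivity
  · rw [div_lt_iff₀ hm]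
    nlinarith

lemma dw_pos (x : Sym2 B → ℤ) (hx : x ∈ RS M) : 0 < dw M x := by
  rw [mem_RS] at hx
  unfold dw
  apply Finset.prod_pos
  intro e _
  induction e using Sym2.ind with
  | _ a b =>
    by_cases hab : a = b
    · subst hab
      rw [if_pos (by rw [Sym2.mk_isDiag_iff])]
      exact one_pos
    · rw [if_neg (by rw [Sym2.mk_isDiag_iff]; exact hab)]
      have h := hx.1 a b hab
      exact sin_pos' h.1 h.2

/-- the rest of the product -/
noncomputable def dr (M : CoxeterMatrix B) (a b : B) (x : Sym2 B → ℤ) : ℝ :=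
  ∏ e ∈ Finset.univ.erase s(a, b),
    if e.IsDiag then 1 else Real.sin (Real.pi * (x e + 1) / (Me M e : ℝ))

lemma dw_eq {a b : B} (hab : a ≠ b) (x : Sym2 B → ℤ) :
    dw M x = Real.sin (Real.pi * (x s(a, b) + 1) / (M a b : ℝ)) * dr M a b x := by
  unfold dw dr
  rw [← Finset.mul_prod_erase Finset.univ _ (Finset.mem_univ s(a, b))]
  rw [if_neg (by rw [Sym2.mk_isDiag_iff]; exact hab)]
  rfl

lemma dr_stp (a b : B) (ε : ℤ) (x : Sym2 B → ℤ) : dr M a b (stp a b ε x) = dr M a b x := by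
  unfold dr
  apply Finset.prod_congr rfl
  intro e he
  rw [Finset.mem_erase] at he
  unfold stp
  rw [Function.update_of_ne he.1]

lemma dw_stp {a b : B} (hab : a ≠ b) (ε : ℤ) (x : Sym2 B → ℤ) :
    dw M (stp a b ε x) =
      Real.sin (Real.pi * (x s(a, b) + ε + 1) / (M a b : ℝ)) * dr M a b x := by
  rw [dw_eq hab, dr_stp, stp_apply_same]
  push_cast
  rfl

lemma dw_sum {a b : B} (hab : a ≠ b) (x : Sym2 B → ℤ) :
    dw M (stp a b (-1) x) + dw M (stp a b 1 x) = 2 * cc M a b * dw M x := by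
  rw [dw_stp hab, dw_stp hab, dw_eq hab]
  have e1 : Real.pi * ((x s(a, b) : ℝ) + ((-1 : ℤ) : ℝ) + 1) / (M a b : ℝ) =
      Real.pi * ((x s(a, b) : ℝ) + 1) / (M a b : ℝ) - Real.pi / (M a b : ℝ) := by
    push_cast; ring
  have e2 : Real.pi * ((x s(a, b) : ℝ) + ((1 : ℤ) : ℝ) + 1) / (M a b : ℝ) =
      Real.pi * ((x s(a, b) : ℝ) + 1) / (M a b : ℝ) + Real.pi / (M a b : ℝ) := by
    push_cast; ring
  rw [e1, e2, Real.sin_sub, Real.sin_add]
  unfold cc
  ring

lemma reindex (hM : ∀ a b, M a b ≠ 0) {a b : B} (hab : a ≠ b) (ε : ℤ) (hε : ε = 1 ∨ ε = -1)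
    (h : (Sym2 B → ℤ) → ℝ) (hh : ∀ x, x ∉ RS M → h x = 0) :
    ∑ x ∈ RS M, dw M x * h (stp a b ε x) = ∑ x ∈ RS M, dw M (stp a b (-ε) x) * h x := by
  have inv1 : ∀ x : Sym2 B → ℤ, stp a b (-ε) (stp a b ε x) = x := by
    intro x; rw [stp_stp, neg_add_cancel, stp_zero]
  have inv2 : ∀ x : Sym2 B → ℤ, stp a b ε (stp a b (-ε) x) = x := by
    intro x; rw [stp_stp, add_neg_cancel, stp_zero]
  apply Finset.sum_bij_ne_zero (fun x _ _ => stp a b ε x)
  · intro x hx h1
    by_contra h2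
    exact h1 (by rw [hh _ h2, mul_zero])
  · intro x _ _ y _ _ hxy
    rw [← inv1 x, ← inv1 y, hxy]
  · intro y hy h1
    refine ⟨stp a b (-ε) y, ?_, ?_, inv2 y⟩
    · have h2 : dw M (stp a b (-ε) y) ≠ 0 := fun h3 => h1 (by rw [h3, zero_mul])
      rw [dw_stp hab] at h2
      have h3 : Real.sin (Real.pi * (y s(a, b) + ((-ε : ℤ) : ℝ) + 1) / (M a b : ℝ)) ≠ 0 :=
        fun h4 => h2 (by rw [h4, zero_mul])
      have hm : (M a b : ℝ) ≠ 0 := by exact_mod_cast hM a b
      have h4 : y s(a, b) + -ε + 1 ≠ 0 := by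
        intro h5
        apply h3
        have : (y s(a, b) : ℝ) + ((-ε : ℤ) : ℝ) + 1 = 0 := by exact_mod_cast h5
        rw [this, mul_zero, zero_div, Real.sin_zero]
      have h5 : y s(a, b) + -ε + 1 ≠ (M a b : ℤ) := by
        intro h5
        apply h3
        have : (y s(a, b) : ℝ) + ((-ε : ℤ) : ℝ) + 1 = (M a b : ℝ) := by exact_mod_cast h5
        rw [this, mul_div_assoc, div_self hm, mul_one, Real.sin_pi]
      rw [mem_RS] at hy ⊢
      have hy1 := hy.1 a b hab
      refine ⟨fun c d hcd => ?_, fun c => ?_⟩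
      · by_cases hcd' : s(c, d) = s(a, b)
        · have hMcd : M c d = M a b := by
            rw [Sym2.eq_iff] at hcd'
            rcases hcd' with ⟨rfl, rfl⟩ | ⟨rfl, rfl⟩
            · rfl
            · exact M.symmetric _ _
          rw [hcd', stp_apply_same, hMcd]
          rcases hε with rfl | rfl <;> omega
        · unfold stp
          rw [Function.update_of_ne hcd']
          exact hy.1 c d hcd
      · unfold stp
        rw [Function.update_of_ne]
        · exact hy.2 c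
        · intro h6
          rw [eq_comm, Sym2.eq_iff] at h6
          rcases h6 with h6 | h6
          · exact hab (h6.1.trans h6.2.symm)
          · exact hab (h6.1.trans h6.2.symm)
    · rw [inv2]; exact h1
  · intro x _ _
    rw [inv1]

/-- (WEIGHT) -/
theorem weight : Weight := by
  intro B _ _ M hM
  refine ⟨mem_RS, dw_pos, fun a b hab h hh => ?_⟩
  have h1 := reindex hM hab 1 (Or.inl rfl) h hh
  have h2 := reindex hM hab (-1) (Or.inr rfl) h hh
  rw [neg_neg] at h2
  simp only [mul_add]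
  rw [Finset.sum_add_distrib, h1, h2, ← Finset.sum_add_distrib, Finset.mul_sum]
  apply Finset.sum_congr rfl
  intro x _
  rw [← add_mul, dw_sum hab, mul_assoc]

end Pool.Agent.W296.MC
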