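import Pool.Agent.W296.MC.Mats
import Pool.Agent.W296.MC.Per

/-!
# Alive paths and reduced words of `w0` and `w0 a`
-/

set_option autoImplicit false

namespace Pool.Agent.W296.MC

open CoxeterSystem Pool.Agent.Helper741

variable {B : Type} [Fintype B] [DecidableEq B] {M : CoxeterMatrix B}

omit [Fintype B] [DecidableEq B] in
lemma hom_en {q : ℕ → B} {n : ℕ} (hq : Per q n) (T : ℕ) :
    Hom (fun p : List (Vx B) => en q 0 (wd p) = T) := by
  intro P v S w w' hw hw' h1
  have key : ∀ u : Vx B, u.1 ≠ v.1 → en q 0 (wd (P ++ v :: u :: v :: S)) =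
      en q (nf q (en q 0 (wd P)) v.1 + n + 1) (wd S) := by
    intro u hu
    have e1 : wd (P ++ v :: u :: v :: S) = wd P ++ ([v.1, u.1, v.1] ++ wd S) := by
      simp
    rw [e1, en_append, en_append, en_aba hq _ hu]
  rw [key w' hw']
  rw [key w hw] at h1
  exact h1

/-- (N1) all harmonic functions are annihilated -/
lemma top_of_concat {R : List B} (hR : ∀ b, An M (R ++ [b]) ⊆ An M R) (l : ℕ) :
    ∀ (φ : List (Vx B) → ℝ) (p : List (Vx B)), Harm M φ → p.length = l → ¬ (wd p).Sublist R →
    φ p = 0 := by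
  induction l with
  | zero =>
    intro φ p hφ hl _
    rw [List.length_eq_zero_iff] at hl
    subst hl
    exact hφ.1 _ (fun h => h.1 rfl)
  | succ l ih =>
    intro φ p hφ hl hp
    obtain ⟨p0, v, rfl⟩ : ∃ p0 v, p = p0 ++ [v] := by
      rcases List.eq_nil_or_concat' p with rfl | ⟨p0, v, rfl⟩
      · simp at hl
      · exact ⟨p0, v, rfl⟩
    have h1 : rst (fun r : List (Vx B) => r.length = l + 1 ∧ r.getLast? = some v) φ ∈
        An M (R ++ [v.1]) := by
      refine ⟨hφ.restrict (hom_and (hom_length _) (hom_last (fun o => o = some v))), fun r hr => ?_⟩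
      by_cases h3 : r.length = l + 1 ∧ r.getLast? = some v
      · rw [rst_pos h3]
        obtain ⟨r0, rfl⟩ : ∃ r0, r = r0 ++ [v] := by
          rcases List.eq_nil_or_concat' r with rfl | ⟨r0, w, rfl⟩
          · simp at h3
          · simp at h3
            exact ⟨r0, by rw [h3.2]⟩
        have h4 : ¬ (wd r0).Sublist R := by
          intro h5
          apply hr
          rw [wd_append, wd_cons, wd_nil, List.append_sublist_append_right]
          exact h5
        have h0 : r0 ≠ [] := by rintro rfl; exact h4 (List.nil_sublist _)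
        have h6 := ih (shr [v] φ) r0 (hφ.shr _) (by simpa using h3.1) h4
        rwa [shr_of_ne _ _ h0] at h6
      · rw [rst_neg h3]
    have h2 := (hR v.1 h1).2 _ hp
    rwa [rst_pos ⟨hl, by simp⟩] at h2

variable {W : Type} [Group W] (cs : CoxeterSystem M W)

omit [Fintype B] [DecidableEq B] in
variable {cs} in
lemma not_lt_of_longest {w0 : W} (hw0 : ∀ w, cs.length w ≤ cs.length w0) (b : B) :
    ¬ cs.length w0 < cs.length (w0 * cs.simple b) := by
  have := hw0 (w0 * cs.simple b)
  omega

variable {cs} in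
theorem top_w0 (hM : ∀ a b, M a b ≠ 0) {w0 : W} (hw0 : ∀ w, cs.length w ≤ cs.length w0)
    {R : List B} (hR : cs.IsReduced R) (hR' : cs.wordProd R = w0) {φ : List (Vx B) → ℝ}
    (hφ : Harm M φ) : φ ∈ An M R := by
  have h1 : An M R = An M (rword cs w0) :=
    An_reduced cs hM hR (rword_reduced cs w0) (by rw [hR', rword_prod])
  rw [h1]
  refine ⟨hφ, fun p hp => ?_⟩
  exact top_of_concat (fun b => (An_rword_descent cs hM (not_lt_of_longest hw0 b)).subset) p.length
    φ p hφ rfl hp

variable {cs} in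
/-- (L6) -/
lemma An_le_w0a (hM : ∀ a b, M a b ≠ 0) {w0 : W} (hw0 : ∀ w, cs.length w ≤ cs.length w0)
    {u : W} {a : B} (ha : cs.length u < cs.length (u * cs.simple a)) :
    An M (rword cs u) ⊆ An M (rword cs (w0 * cs.simple a)) := by
  set K := w0 * (u * cs.simple a)⁻¹ with hK
  have h1 : K * u = w0 * cs.simple a := by
    rw [hK, mul_inv_rev, cs.inv_simple]
    group
  have h2 := longest_mul hw0 (u * cs.simple a)⁻¹
  rw [← hK, cs.length_inv] at h2
  have h3 := longest_mul hw0 (cs.simple a)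
  rw [cs.length_simple] at h3
  have h4 : cs.length (u * cs.simple a) = cs.length u + 1 := by
    rcases cs.length_mul_simple u a with h | h <;> omega
  have h5 : An M (rword cs K ++ rword cs u) = An M (rword cs (w0 * cs.simple a)) := by
    apply An_reduced cs hM
    · unfold CoxeterSystem.IsReduced
      rw [cs.wordProd_append, rword_prod, rword_prod, h1, List.length_append, rword_length,
        rword_length]
      omega
    · exact rword_reduced cs _
    · rw [cs.wordProd_append, rword_prod, rword_prod, rword_prod, h1]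
  rw [← h5]
  exact An_mono (by simp)

variable {cs} in
/-- (L7) -/
lemma sub_w0a (hM : ∀ a b, M a b ≠ 0) {w0 : W} (hw0 : ∀ w, cs.length w ≤ cs.length w0)
    {φ : List (Vx B) → ℝ} (hφ : Harm M φ) {p : List (Vx B)} {v : Vx B} {a : B} (hv : v.1 ≠ a)
    (hp : φ (p ++ [v]) ≠ 0) : (wd (p ++ [v])).Sublist (rword cs (w0 * cs.simple a)) := by
  by_contra hcon
  have h1 : cs.IsReduced (rword cs (w0 * cs.simple a) ++ [a]) := by
    apply isReduced_concat cs (rword_reduced cs _)
    rw [rword_prod, cs.simple_mul_simple_cancel_right]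
    have h3 := longest_mul hw0 (cs.simple a)
    rw [cs.length_simple] at h3
    omega
  have h2 : cs.wordProd (rword cs (w0 * cs.simple a) ++ [a]) = w0 := by
    rw [cs.wordProd_append, cs.wordProd_singleton, rword_prod, cs.simple_mul_simple_cancel_right]
  apply hp
  apply (top_w0 hM hw0 h1 h2 hφ).2
  intro h3
  apply hcon
  rw [List.sublist_append_iff] at h3
  obtain ⟨l1, l2, h5, h6, h7⟩ := h3
  rw [List.sublist_singleton] at h7
  rcases h7 with rfl | rfl
  · rw [List.append_nil] at h5
    rw [h5]; exact h6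
  · exfalso
    have := congrArg List.getLast? h5
    simp at this
    exact hv this

omit [Fintype B] [DecidableEq B] in
lemma gr_succ_pos {q : ℕ → B} {t : ℕ} (h : InG cs q t) :
    gr cs q (t + 1) = gr cs q t * cs.simple (q t) := by
  unfold InG at h
  rw [gr, if_pos h]

omit [Fintype B] [DecidableEq B] in
lemma gr_succ_neg {q : ℕ → B} {t : ℕ} (h : ¬ InG cs q t) : gr cs q (t + 1) = gr cs q t := by
  unfold InG at h
  rw [gr, if_neg h]

variable {cs} in
/-- (G1) -/
lemma G1 (hM : ∀ a b, M a b ≠ 0) {q : ℕ → B} {n : ℕ} (hq : Per q n)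
    {φ : List (Vx B) → ℝ} (hφ : Harm M φ) {p : List (Vx B)} (hp : φ p ≠ 0) {t : ℕ}
    (ht : en q 0 (wd p) = t + 1) : InG cs q t := by
  by_contra h
  apply hp
  have h1 : An M (pre q (t + 1)) = An M (pre q t) := by
    rw [An_pre cs hM, An_pre cs hM, gr_succ_neg cs h]
  have h2 : rst (fun r : List (Vx B) => en q 0 (wd r) = t + 1) φ ∈ An M (pre q (t + 1)) := by
    refine ⟨hφ.restrict (hom_en hq _), fun r hr => ?_⟩
    apply rst_neg
    intro h3
    apply hr
    rw [sub_pre hq, h3]
  rw [h1] at h2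
  have h3 := h2.2 p (by rw [sub_pre hq, ht]; omega)
  rwa [rst_pos ht] at h3

variable {cs} in
/-- (U4) -/
lemma U4 (hM : ∀ a b, M a b ≠ 0) {w0 : W} (hw0 : ∀ w, cs.length w ≤ cs.length w0) {q : ℕ → B}
    {n : ℕ} (hq : Per q n) {φ : List (Vx B) → ℝ} (hφ : Harm M φ) {p : List (Vx B)} (hp : φ p ≠ 0)
    {a : B} (hpa : ¬ (wd p).Sublist (rword cs (w0 * cs.simple a))) :
    ∃ t, en q 0 (wd p) = t + 1 ∧ q t = a ∧ InG cs q t ∧ ∀ t', q t' = a → InG cs q t' → t' ≤ t := by
  obtain ⟨p0, v, rfl⟩ : ∃ p0 v, p = p0 ++ [v] := by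
    rcases List.eq_nil_or_concat' p with rfl | ⟨p0, v, rfl⟩
    · exact absurd (List.nil_sublist _) hpa
    · exact ⟨p0, v, rfl⟩
  have hva : v.1 = a := by
    by_contra h
    exact hpa (sub_w0a hM hw0 hφ h hp)
  have h1 : en q 0 (wd (p0 ++ [v])) = nf q (en q 0 (wd p0)) a + 1 := by
    rw [wd_append, wd_cons, wd_nil, en_concat, hva]
  refine ⟨_, h1, q_nf hq _ _, G1 hM hq hφ hp h1, ?_⟩
  set t := nf q (en q 0 (wd p0)) a with ht
  intro t' ha' ht'
  by_contra hlt
  apply hp
  have h2 : rst (fun r : List (Vx B) => en q 0 (wd r) = t + 1) φ ∈ An M (pre q t') := by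
    refine ⟨hφ.restrict (hom_en hq _), fun r hr => ?_⟩
    apply rst_neg
    intro h3
    apply hr
    rw [sub_pre hq, h3]
    omega
  rw [An_pre cs hM] at h2
  unfold InG at ht'
  rw [ha'] at ht'
  have h3 := (An_le_w0a hM hw0 ht' h2).2 _ hpa
  rwa [rst_pos h1] at h3

end Pool.Agent.W296.MC
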