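import Pool.Agent.W296.MC.Defs

/-!
# Harmonic functions on paths: restriction and shifts
-/

set_option autoImplicit false

namespace Pool.Agent.W296.MC

variable {B : Type} [Fintype B] [DecidableEq B] {M : CoxeterMatrix B}

/-! ### Paths -/

omit [Fintype B] in
lemma IsPath.tail {v : Vx B} {p : List (Vx B)} (h : IsPath M (v :: p)) (hp : p ≠ []) : IsPath M p :=
  ⟨hp, fun w hw => h.2.1 w (List.mem_cons_of_mem _ hw), (List.isChain_cons.mp h.2.2).2⟩

omit [Fintype B] in
lemma IsPath.append_right {p p' : List (Vx B)} (h : IsPath M (p ++ p')) (hp : p' ≠ []) :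
    IsPath M p' :=
  ⟨hp, fun w hw => h.2.1 w (List.mem_append_right _ hw), h.2.2.right_of_append⟩

omit [Fintype B] in
lemma IsPath.append_left {p p' : List (Vx B)} (h : IsPath M (p ++ p')) (hp : p ≠ []) :
    IsPath M p :=
  ⟨hp, fun w hw => h.2.1 w (List.mem_append_left _ hw), h.2.2.left_of_append⟩

omit [Fintype B] in
lemma IsPath.ne {P : List (Vx B)} {v w : Vx B} {S : List (Vx B)}
    (h : IsPath M (P ++ v :: w :: S)) : v.1 ≠ w.1 := by
  have h1 := h.2.2.right_of_append
  rw [List.isChain_cons_cons] at h1
  exact h1.1.1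

omit [Fintype B] in
lemma IsPath.ne' {P : List (Vx B)} {v w : Vx B} {S : List (Vx B)}
    (h : IsPath M (P ++ v :: w :: S)) : w.1 ≠ v.1 := h.ne.symm

lemma Harm.eq_zero_of_eq {φ : List (Vx B) → ℝ} (hφ : Harm M φ) (P : List (Vx B)) (v w : Vx B)
    (S : List (Vx B)) (h : v.1 = w.1) : φ (P ++ v :: w :: S) = 0 :=
  hφ.1 _ (fun hp => hp.ne h)

omit [Fintype B] [DecidableEq B] in
@[simp] lemma wd_nil : wd ([] : List (Vx B)) = [] := rfl
omit [Fintype B] [DecidableEq B] in
@[simp] lemma wd_cons (v : Vx B) (p : List (Vx B)) : wd (v :: p) = v.1 :: wd p := rfl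
omit [Fintype B] [DecidableEq B] in
@[simp] lemma wd_append (p p' : List (Vx B)) : wd (p ++ p') = wd p ++ wd p' := by
  unfold wd; rw [List.map_append]
omit [Fintype B] [DecidableEq B] in
@[simp] lemma wd_length (p : List (Vx B)) : (wd p).length = p.length := by
  unfold wd; rw [List.length_map]

/-! ### Restriction -/

open scoped Classical in
/-- restriction of a function on paths to a set of paths -/
noncomputable def rst (h : List (Vx B) → Prop) (φ : List (Vx B) → ℝ) : List (Vx B) → ℝ :=
  fun p => if h p then φ p else 0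

omit [Fintype B] [DecidableEq B] in
lemma rst_pos {h : List (Vx B) → Prop} {φ : List (Vx B) → ℝ} {p : List (Vx B)} (hp : h p) :
    rst h φ p = φ p := by
  unfold rst; rw [if_pos hp]

omit [Fintype B] [DecidableEq B] in
lemma rst_neg {h : List (Vx B) → Prop} {φ : List (Vx B) → ℝ} {p : List (Vx B)} (hp : ¬ h p) :
    rst h φ p = 0 := by
  unfold rst; rw [if_neg hp]

omit [Fintype B] [DecidableEq B] in
lemma rst_ne {h : List (Vx B) → Prop} {φ : List (Vx B) → ℝ} {p : List (Vx B)}
    (hp : rst h φ p ≠ 0) : h p ∧ φ p ≠ 0 := by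
  by_cases h1 : h p
  · rw [rst_pos h1] at hp; exact ⟨h1, hp⟩
  · rw [rst_neg h1] at hp; exact absurd rfl hp

/-- homogeneous conditions -/
def Hom (h : List (Vx B) → Prop) : Prop :=
  ∀ (P : List (Vx B)) (v : Vx B) (S : List (Vx B)) (w w' : Vx B), w.1 ≠ v.1 → w'.1 ≠ v.1 →
    h (P ++ v :: w :: v :: S) → h (P ++ v :: w' :: v :: S)

lemma Harm.restrict {φ : List (Vx B) → ℝ} (hφ : Harm M φ) {h : List (Vx B) → Prop} (hh : Hom h) :
    Harm M (rst h φ) := by
  classical
  constructor
  · intro p hp
    by_cases h1 : h p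
    · rw [rst_pos h1]; exact hφ.1 p hp
    · rw [rst_neg h1]
  · intro P v S
    by_cases hex : ∃ w : Vx B, w.1 ≠ v.1 ∧ h (P ++ v :: w :: v :: S)
    · obtain ⟨w, hw, h1⟩ := hex
      rw [← hφ.2 P v S]
      apply Finset.sum_congr rfl
      intro b _
      by_cases hb : b = v.1
      · have e1 : ∀ (ψ : List (Vx B) → ℝ) (hψ : ∀ p, ¬ IsPath M p → ψ p = 0) (ε : ℤ),
            ψ (P ++ v :: nb v b ε :: v :: S) = 0 := by
          intro ψ hψ ε
          apply hψ
          intro hp
          exact hp.ne (by rw [hb]; rfl)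
        have hr : ∀ p, ¬ IsPath M p → rst h φ p = 0 := by
          intro p hp
          by_cases h1 : h p
          · rw [rst_pos h1]; exact hφ.1 p hp
          · rw [rst_neg h1]
        rw [e1 _ hr, e1 _ hr, e1 _ hφ.1, e1 _ hφ.1]
      · rw [rst_pos (hh P v S w _ hw (by exact hb) h1), rst_pos (hh P v S w _ hw (by exact hb) h1)]
    · push Not at hex
      apply Finset.sum_eq_zero
      intro b _
      by_cases hb : b = v.1
      · have hr : ∀ p, ¬ IsPath M p → rst h φ p = 0 := by
          intro p hp
          by_cases h1 : h p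
          · rw [rst_pos h1]; exact hφ.1 p hp
          · rw [rst_neg h1]
        rw [hr, hr, add_zero]
        · intro hp; exact hp.ne (by rw [hb]; rfl)
        · intro hp; exact hp.ne (by rw [hb]; rfl)
      · rw [rst_neg (hex _ (by exact hb)), rst_neg (hex _ (by exact hb)), add_zero]

omit [Fintype B] [DecidableEq B] in
lemma hom_and {h h' : List (Vx B) → Prop} (hh : Hom h) (hh' : Hom h') :
    Hom (fun p => h p ∧ h' p) :=
  fun P v S w w' hw hw' h1 => ⟨hh P v S w w' hw hw' h1.1, hh' P v S w w' hw hw' h1.2⟩

omit [Fintype B] [DecidableEq B] in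
lemma hom_length (l : ℕ) : Hom (fun p : List (Vx B) => p.length = l) := by
  intro P v S w w' _ _ h1
  simpa using h1

omit [Fintype B] [DecidableEq B] in
lemma hom_last (P : Option (Vx B) → Prop) : Hom (fun p : List (Vx B) => P p.getLast?) := by
  intro P v S w w' _ _ h1
  simpa [List.getLast?_append, List.getLast?_cons] using h1

omit [Fintype B] [DecidableEq B] in
lemma hom_head (Q : Option (Vx B) → Prop) : Hom (fun p : List (Vx B) => Q p.head?) := by
  intro P v S w w' _ _ h1
  cases P with
  | nil => simpa using h1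
  | cons x P => simpa using h1

/-! ### Shifts -/

open scoped Classical in
/-- right shift -/
noncomputable def shr (S : List (Vx B)) (φ : List (Vx B) → ℝ) : List (Vx B) → ℝ :=
  fun r => if r = [] then 0 else φ (r ++ S)

open scoped Classical in
/-- left shift -/
noncomputable def shl (P : List (Vx B)) (φ : List (Vx B) → ℝ) : List (Vx B) → ℝ :=
  fun r => if r = [] then 0 else φ (P ++ r)

omit [Fintype B] [DecidableEq B] in
lemma shr_of_ne (S : List (Vx B)) (φ : List (Vx B) → ℝ) {r : List (Vx B)} (hr : r ≠ []) :
    shr S φ r = φ (r ++ S) := by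
  unfold shr; rw [if_neg hr]

omit [Fintype B] [DecidableEq B] in
lemma shl_of_ne (S : List (Vx B)) (φ : List (Vx B) → ℝ) {r : List (Vx B)} (hr : r ≠ []) :
    shl S φ r = φ (S ++ r) := by
  unfold shl; rw [if_neg hr]

lemma Harm.shr {φ : List (Vx B) → ℝ} (hφ : Harm M φ) (S : List (Vx B)) : Harm M (shr S φ) := by
  constructor
  · intro p hp
    by_cases h : p = []
    · unfold MC.shr; rw [if_pos h]
    · rw [shr_of_ne _ _ h]
      apply hφ.1
      intro h1
      exact hp (h1.append_left h)
  · intro P v S'
    rw [← hφ.2 P v (S' ++ S)]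
    apply Finset.sum_congr rfl
    intro b _
    rw [shr_of_ne _ _ (by simp), shr_of_ne _ _ (by simp)]
    simp

lemma Harm.shl {φ : List (Vx B) → ℝ} (hφ : Harm M φ) (S : List (Vx B)) : Harm M (shl S φ) := by
  constructor
  · intro p hp
    by_cases h : p = []
    · unfold MC.shl; rw [if_pos h]
    · rw [shl_of_ne _ _ h]
      apply hφ.1
      intro h1
      exact hp (h1.append_right h)
  · intro P v S'
    rw [← hφ.2 (S ++ P) v S']
    apply Finset.sum_congr rfl
    intro b _
    rw [shl_of_ne _ _ (by simp), shl_of_ne _ _ (by simp)]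
    simp

/-! ### Annihilators -/

lemma An_mono {J J' : List B} (h : J.Sublist J') : An M J ⊆ An M J' := by
  rintro φ ⟨h1, h2⟩
  exact ⟨h1, fun p hp => h2 p (fun h3 => hp (h3.trans h))⟩

lemma An_concat {J J' : List B} (h : An M J ⊆ An M J') (a : B) :
    An M (J ++ [a]) ⊆ An M (J' ++ [a]) := by
  rintro φ ⟨h1, h2⟩
  refine ⟨h1, fun p hp => ?_⟩
  rcases List.eq_nil_or_concat' p with rfl | ⟨p0, v, rfl⟩
  · exact absurd (List.nil_sublist _) hp
  by_cases hv : v.1 = a
  · have hψ : shr [v] φ ∈ An M J := by
      refine ⟨h1.shr _, fun r hr => ?_⟩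
      have hr0 : r ≠ [] := by rintro rfl; exact hr (List.nil_sublist _)
      rw [shr_of_ne _ _ hr0]
      apply h2
      intro h3
      rw [wd_append, wd_cons, wd_nil, hv, List.append_sublist_append_right] at h3
      exact hr h3
    have hp0 : ¬ (wd p0).Sublist J' := by
      intro h3
      apply hp
      rw [wd_append, wd_cons, wd_nil, hv, List.append_sublist_append_right]
      exact h3
    have h0 : p0 ≠ [] := by rintro rfl; exact hp0 (List.nil_sublist _)
    have := (h hψ).2 p0 hp0
    rwa [shr_of_ne _ _ h0] at this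
  · have hψ : rst (fun p => p.getLast? = some v) φ ∈ An M J := by
      refine ⟨h1.restrict (hom_last (fun o => o = some v)), fun r hr => ?_⟩
      by_cases h3 : r.getLast? = some v
      · rw [rst_pos h3]
        apply h2
        intro h4
        apply hr
        obtain ⟨r0, rfl⟩ : ∃ r0, r = r0 ++ [v] := by
          rcases List.eq_nil_or_concat' r with rfl | ⟨r0, w, rfl⟩
          · simp at h3
          · simp at h3
            exact ⟨r0, by rw [h3]⟩
        rw [wd_append, wd_cons, wd_nil] at h4 ⊢
        rw [List.sublist_append_iff] at h4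
        obtain ⟨l1, l2, h5, h6, h7⟩ := h4
        rw [List.sublist_singleton] at h7
        rcases h7 with rfl | rfl
        · rw [List.append_nil] at h5
          rw [h5]; exact h6
        · exfalso
          have := congrArg List.getLast? h5
          simp at this
          exact hv this
      · rw [rst_neg h3]
    have hp' : ¬ (wd (p0 ++ [v])).Sublist J' := fun h3 => hp (h3.trans (by simp))
    have := (h hψ).2 _ hp'
    rwa [rst_pos (by simp)] at this

lemma An_cons {J J' : List B} (h : An M J ⊆ An M J') (a : B) :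
    An M (a :: J) ⊆ An M (a :: J') := by
  rintro φ ⟨h1, h2⟩
  refine ⟨h1, fun p hp => ?_⟩
  rcases p with _ | ⟨v, p0⟩
  · exact absurd (List.nil_sublist _) hp
  by_cases hv : v.1 = a
  · have hψ : shl [v] φ ∈ An M J := by
      refine ⟨h1.shl _, fun r hr => ?_⟩
      have hr0 : r ≠ [] := by rintro rfl; exact hr (List.nil_sublist _)
      rw [shl_of_ne _ _ hr0]
      apply h2
      intro h3
      rw [wd_append, wd_cons, wd_nil, hv, List.singleton_append, List.cons_sublist_cons] at h3
      exact hr h3
    have hp0 : ¬ (wd p0).Sublist J' := by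
      intro h3
      apply hp
      rw [wd_cons, hv, List.cons_sublist_cons]
      exact h3
    have h0 : p0 ≠ [] := by rintro rfl; exact hp0 (List.nil_sublist _)
    have := (h hψ).2 p0 hp0
    rwa [shl_of_ne _ _ h0] at this
  · have hψ : rst (fun p => p.head? = some v) φ ∈ An M J := by
      refine ⟨h1.restrict (hom_head (fun o => o = some v)), fun r hr => ?_⟩
      by_cases h3 : r.head? = some v
      · rw [rst_pos h3]
        apply h2
        intro h4
        apply hr
        obtain ⟨r0, rfl⟩ : ∃ r0, r = v :: r0 := by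
          rcases r with _ | ⟨w, r0⟩
          · simp at h3
          · simp at h3
            exact ⟨r0, by rw [h3]⟩
        rw [wd_cons] at h4 ⊢
        cases h4 with
        | cons _ h => exact h
        | cons_cons _ h => exact absurd rfl hv
      · rw [rst_neg h3]
    have hp' : ¬ (wd (v :: p0)).Sublist J' := fun h3 => hp (h3.cons _)
    have := (h hψ).2 _ hp'
    rwa [rst_pos (by simp)] at this

lemma An_append_right {J J' : List B} (h : An M J ⊆ An M J') (K : List B) :
    An M (J ++ K) ⊆ An M (J' ++ K) := by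
  induction K generalizing J J' with
  | nil => simpa using h
  | cons a K ih =>
    have := ih (An_concat h a)
    simpa using this

lemma An_append_left {J J' : List B} (h : An M J ⊆ An M J') (K : List B) :
    An M (K ++ J) ⊆ An M (K ++ J') := by
  induction K with
  | nil => simpa using h
  | cons a K ih =>
    exact An_cons ih a

lemma An_idem (a : B) : An M [a, a] ⊆ An M [a] := by
  rintro φ ⟨h1, h2⟩
  refine ⟨h1, fun p hp => ?_⟩
  by_cases h3 : (wd p).Sublist [a, a]
  · apply h1.1
    intro h4
    rcases p with _ | ⟨v, _ | ⟨w, S⟩⟩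
    · exact h4.1 rfl
    · simp only [wd_cons, wd_nil] at h3 hp
      apply hp
      rw [List.singleton_sublist] at h3 ⊢
      simpa using h3
    · simp only [wd_cons] at h3
      have h5 := h3.subset
      have h6 : v.1 = a := by
        have := h5 (List.mem_cons_self ..)
        simpa using this
      have h7 : w.1 = a := by
        have := h5 (List.mem_cons_of_mem _ (List.mem_cons_self ..))
        simpa using this
      exact h4.ne (P := []) (h6.trans h7.symm)
  · exact h2 p h3

end Pool.Agent.W296.MC
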