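import Pool.Agent.Helper741.Garside

/-!
# Minimal non-faces of multi-cluster complexes: definitions

Proof idea.  The Coxeter graph of `W` is unfolded to a simply laced graph with vertex set
`B x (Sym2 B -> Z)` (the fibre coordinate at the pair `{a,b}` moves by one when a path
crosses the edge `ab`, it must stay in `0 .. m(a,b)-2`).  `Harm` is the space of real functions on the
paths of this graph which satisfy the mesh (preprojective) relations, i.e. the dual of the
preprojective algebra, and `An J` is the annihilator of the product of the ideals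
`I_(j_1) I_(j_2) ...`; it consists of the harmonic functions which vanish on every path whose word is not a
subword of `J`.
-/

set_option autoImplicit false

namespace Pool.Agent.W296.MC

open Pool.Agent.Helper741

/-- vertices of the unfolded graph -/
abbrev Vx (B : Type) := B × (Sym2 B → ℤ)

/-- the word of a path -/
def wd {B : Type} (p : List (Vx B)) : List B := p.map Prod.fst

section paths

variable {B : Type} [DecidableEq B]

/-- change the coordinate at the pair `{a,b}` by `ε` -/
def stp (a b : B) (ε : ℤ) (x : Sym2 B → ℤ) : Sym2 B → ℤ :=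
  Function.update x s(a, b) (x s(a, b) + ε)

/-- the neighbour of `v` over `b` in direction `ε` (`ε = 1` or `-1`) -/
def nb (v : Vx B) (b : B) (ε : ℤ) : Vx B := (b, stp v.1 b ε v.2)

variable (M : CoxeterMatrix B)

/-- all coordinates in range -/
def InR (x : Sym2 B → ℤ) : Prop :=
  ∀ a b : B, a ≠ b → 0 ≤ x s(a, b) ∧ x s(a, b) + 2 ≤ (M a b : ℤ)

/-- adjacency (without the range condition) -/
def Adj (v w : Vx B) : Prop := v.1 ≠ w.1 ∧ (w = nb v w.1 1 ∨ w = nb v w.1 (-1))

/-- paths of the unfolded graph, as nonempty lists of vertices -/
def IsPath (p : List (Vx B)) : Prop := p ≠ [] ∧ (∀ v ∈ p, InR M v.2) ∧ p.IsChain Adj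

/-- harmonic functions: functions on paths with the mesh relations -/
def Harm [Fintype B] (φ : List (Vx B) → ℝ) : Prop :=
  (∀ p, ¬ IsPath M p → φ p = 0) ∧
  ∀ (P : List (Vx B)) (v : Vx B) (S : List (Vx B)),
    ∑ b : B, (φ (P ++ v :: nb v b 1 :: v :: S) + φ (P ++ v :: nb v b (-1) :: v :: S)) = 0

/-- annihilator of the ideal of the word `J` -/
def An [Fintype B] (J : List B) : Set (List (Vx B) → ℝ) :=
  {φ | Harm M φ ∧ ∀ p, ¬ (wd p).Sublist J → φ p = 0}

/-- a path which is nonzero in the preprojective algebra -/
def Alive [Fintype B] (p : List (Vx B)) : Prop := ∃ φ, Harm M φ ∧ φ p ≠ 0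

end paths

/-! ### Periodic words -/

section periodic

variable {B : Type}

/-- `q : ℕ → B` has period `n` and every window of length `n` contains every letter exactly once -/
structure Per (q : ℕ → B) (n : ℕ) : Prop where
  per : ∀ t, q (t + n) = q t
  ex : ∀ t b, ∃ t', t ≤ t' ∧ t' < t + n ∧ q t' = b
  uniq : ∀ t t', t < t' → t' < t + n → q t ≠ q t'

open scoped Classical in
/-- first position `≥ τ` with letter `b` -/
noncomputable def nf (q : ℕ → B) (τ : ℕ) (b : B) : ℕ :=
  if h : ∃ t', τ ≤ t' ∧ q t' = b then Nat.find h else 0

/-- greedy matching of the word `γ` in `q τ, q (τ+1), …`; returns the first unused position -/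
noncomputable def en (q : ℕ → B) (τ : ℕ) (γ : List B) : ℕ := γ.foldl (fun τ b => nf q τ b + 1) τ

variable {M : CoxeterMatrix B} {W : Type} [Group W] (cs : CoxeterSystem M W)

open scoped Classical in
/-- greedy (Demazure) product of the first `t` letters of `q` -/
noncomputable def gr (q : ℕ → B) : ℕ → W
  | 0 => 1
  | (t + 1) =>
      if cs.length (gr q t) < cs.length (gr q t * cs.simple (q t))
        then gr q t * cs.simple (q t) else gr q t

/-- positions used by the greedy product -/
def InG (q : ℕ → B) (t : ℕ) : Prop :=
  cs.length (gr cs q t) < cs.length (gr cs q t * cs.simple (q t))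

/-- the prefix of length `T` -/
def pre (q : ℕ → B) (T : ℕ) : List B := (List.range T).map q

end periodic

end Pool.Agent.W296.MC
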