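import Pool.Agent.W296.MC.Alive

/-!
# Dimension count for harmonic functions
-/

set_option autoImplicit false

namespace Pool.Agent.W296.MC

open Pool.Agent.Helper741

variable {B : Type} [Fintype B] [DecidableEq B] {M : CoxeterMatrix B}

lemma Harm.zero : Harm M (0 : List (Vx B) → ℝ) := by
  refine ⟨fun p _ => rfl, fun P v S => ?_⟩
  simp

lemma Harm.add {φ ψ : List (Vx B) → ℝ} (h : Harm M φ) (h' : Harm M ψ) : Harm M (φ + ψ) := by
  refine ⟨fun p hp => ?_, fun P v S => ?_⟩
  · rw [Pi.add_apply, h.1 p hp, h'.1 p hp, add_zero]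
  · have h1 := h.2 P v S
    have h2 := h'.2 P v S
    have h3 : ∑ b : B, ((φ + ψ) (P ++ v :: nb v b 1 :: v :: S) +
        (φ + ψ) (P ++ v :: nb v b (-1) :: v :: S)) =
        ∑ b : B, (φ (P ++ v :: nb v b 1 :: v :: S) + φ (P ++ v :: nb v b (-1) :: v :: S)) +
        ∑ b : B, (ψ (P ++ v :: nb v b 1 :: v :: S) + ψ (P ++ v :: nb v b (-1) :: v :: S)) := by
      rw [← Finset.sum_add_distrib]
      apply Finset.sum_congr rfl
      intro b _
      simp only [Pi.add_apply]
      ring
    rw [h3, h1, h2, add_zero]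

lemma Harm.smul {φ : List (Vx B) → ℝ} (c : ℝ) (h : Harm M φ) : Harm M (c • φ) := by
  refine ⟨fun p hp => ?_, fun P v S => ?_⟩
  · rw [Pi.smul_apply, h.1 p hp, smul_zero]
  · have h1 := h.2 P v S
    rw [← smul_zero c]
    conv_rhs => rw [← h1]
    rw [Finset.smul_sum]
    apply Finset.sum_congr rfl
    intro b _
    simp only [Pi.smul_apply, smul_eq_mul]
    ring

variable (M) in
/-- harmonic functions on the paths from `v0` to `(q t, x)` with greedy end `t + 1` -/
def HS (q : ℕ → B) (v0 : Vx B) (t : ℕ) (x : Sym2 B → ℤ) : Submodule ℝ (List (Vx B) → ℝ) where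
  carrier := {φ | Harm M φ ∧ ∀ p, φ p ≠ 0 →
    p.head? = some v0 ∧ p.getLast? = some (q t, x) ∧ en q 0 (wd p) = t + 1}
  zero_mem' := ⟨Harm.zero, fun p hp => absurd rfl hp⟩
  add_mem' := by
    rintro φ ψ ⟨h1, h2⟩ ⟨h3, h4⟩
    refine ⟨h1.add h3, fun p hp => ?_⟩
    by_cases h5 : φ p = 0
    · apply h4
      rw [Pi.add_apply, h5, zero_add] at hp
      exact hp
    · exact h2 p h5
  smul_mem' := by
    rintro c φ ⟨h1, h2⟩
    refine ⟨h1.smul c, fun p hp => h2 p ?_⟩
    intro h
    apply hp
    rw [Pi.smul_apply, h, smul_zero]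

/-- unroll a list of steps -/
def unr : Vx B → List (B × Bool) → List (Vx B)
  | v, [] => [v]
  | v, (s :: l) => v :: unr (nb v s.1 (sgn s.2)) l

lemma exists_unr (p : List (Vx B)) : ∀ v : Vx B, (v :: p).IsChain Adj →
    ∃ l : List (B × Bool), l.length = p.length ∧ v :: p = unr v l := by
  induction p with
  | nil => intro v _; exact ⟨[], rfl, rfl⟩
  | cons w p ih =>
    intro v h
    rw [List.isChain_cons_cons] at h
    obtain ⟨l, h1, h2⟩ := ih w h.2
    rcases h.1.2 with h3 | h3
    · refine ⟨(w.1, true) :: l, by simp [h1], ?_⟩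
      rw [unr, h2]
      simp only [sgn, if_true]
      rw [← h3]
    · refine ⟨(w.1, false) :: l, by simp [h1], ?_⟩
      rw [unr, h2]
      simp only [sgn, Bool.false_eq_true, if_false]
      rw [← h3]

lemma finite_paths {q : ℕ → B} {n : ℕ} (hq : Per q n) (v0 : Vx B) (t : ℕ) :
    {p : List (Vx B) | IsPath M p ∧ p.head? = some v0 ∧ en q 0 (wd p) = t + 1}.Finite := by
  apply ((List.finite_length_le (B × Bool) t).image (unr v0)).subset
  rintro p ⟨h1, h2, h3⟩
  rcases p with _ | ⟨v, p⟩
  · simp at h2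
  simp at h2
  subst h2
  obtain ⟨l, h4, h5⟩ := exists_unr p v h1.2.2
  refine ⟨l, ?_, h5.symm⟩
  have h6 := en_ge hq 0 (wd (v :: p))
  rw [h3, wd_length, List.length_cons] at h6
  simp only [Set.mem_setOf_eq]
  omega

lemma finite_HS {q : ℕ → B} {n : ℕ} (hq : Per q n) (v0 : Vx B) (t : ℕ) (x : Sym2 B → ℤ) :
    Module.Finite ℝ (HS M q v0 t x) := by
  have hF := finite_paths (M := M) hq v0 t
  haveI := hF.fintype
  let f : HS M q v0 t x →ₗ[ℝ]
      ({p : List (Vx B) | IsPath M p ∧ p.head? = some v0 ∧ en q 0 (wd p) = t + 1} → ℝ) :=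
    { toFun := fun φ p => φ.1 p.1
      map_add' := fun _ _ => rfl
      map_smul' := fun _ _ => rfl }
  apply Module.Finite.of_injective f
  rw [injective_iff_map_eq_zero]
  intro φ hφ
  apply Subtype.ext
  funext p
  by_contra h
  have h1 : IsPath M p := by
    by_contra h2
    exact h (φ.2.1.1 p h2)
  have h2 := φ.2.2 p h
  have := congrFun hφ ⟨p, h1, h2.1, h2.2.2⟩
  exact h this

/-- index set of the neighbours -/
abbrev Ix (n t : ℕ) := {t' : ℕ // t' ∈ (Finset.range t).filter (fun t' => t < t' + n)} × Bool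

lemma Ix.lt {n t : ℕ} (i : Ix n t) : i.1.1 < t := by
  have := i.1.2
  rw [Finset.mem_filter, Finset.mem_range] at this
  exact this.1

lemma Ix.gt {n t : ℕ} (i : Ix n t) : t < i.1.1 + n := by
  have := i.1.2
  rw [Finset.mem_filter, Finset.mem_range] at this
  exact this.2

/-- neighbour -/
def ww (q : ℕ → B) {n : ℕ} (t : ℕ) (x : Sym2 B → ℤ) (i : Ix n t) : Vx B :=
  nb (q t, x) (q i.1.1) (sgn i.2)

section

variable {q : ℕ → B} {n : ℕ} (hq : Per q n) {t : ℕ} {x : Sym2 B → ℤ}

include hq in
lemma Ix.ne (i : Ix n t) : q i.1.1 ≠ q t := hq.uniq _ _ i.lt i.gt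

include hq in
lemma ww_inj {i j : Ix n t} (h : ww q t x i = ww q t x j) : i = j := by
  have h1 : q i.1.1 = q j.1.1 := congrArg Prod.fst h
  have h2 : i.1.1 = j.1.1 := by
    have := i.lt
    have := i.gt
    have := j.lt
    have := j.gt
    by_contra h3
    rcases Nat.lt_or_gt_of_ne h3 with h4 | h4
    · exact hq.uniq _ _ h4 (by omega) h1
    · exact hq.uniq _ _ h4 (by omega) h1.symm
  have h3 : stp (q t) (q i.1.1) (sgn i.2) x = stp (q t) (q j.1.1) (sgn j.2) x :=
    congrArg Prod.snd h
  have h4 := congrFun h3 s(q t, q i.1.1)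
  rw [stp_apply_same, h1, stp_apply_same] at h4
  have h5 : sgn i.2 = sgn j.2 := by linarith
  have h6 : i.2 = j.2 := by
    revert h5
    cases i.2 <;> cases j.2 <;> simp [sgn]
  exact Prod.ext (Subtype.ext h2) h6

/-- the component at the index `i` -/
abbrev HI (M : CoxeterMatrix B) (q : ℕ → B) (n : ℕ) (v0 : Vx B) (t : ℕ) (x : Sym2 B → ℤ)
    (i : Ix n t) := HS M q v0 i.1.1 (ww q t x i).2

variable {v0 : Vx B}

lemma HI_last {i : Ix n t} (φ : HI M q n v0 t x i) {r : List (Vx B)} (h : φ.1 r ≠ 0) :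
    r.getLast? = some (ww q t x i) := (φ.2.2 r h).2.1

open scoped Classical in
/-- extension by one step -/
noncomputable def Theta (M : CoxeterMatrix B) (q : ℕ → B) (n : ℕ) (v0 : Vx B) (t : ℕ)
    (x : Sym2 B → ℤ) : ((i : Ix n t) → HI M q n v0 t x i) →ₗ[ℝ] (List (Vx B) → ℝ) where
  toFun ψ p := if p.getLast? = some (q t, x) then ∑ i, (ψ i).1 p.dropLast else 0
  map_add' ψ ψ' := by
    funext p
    simp only [Pi.add_apply, Submodule.coe_add, Finset.sum_add_distrib]
    split_ifs <;> simp
  map_smul' c ψ := by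
    funext p
    simp only [Pi.smul_apply, Submodule.coe_smul, RingHom.id_apply, smul_eq_mul]
    split_ifs
    · rw [Finset.mul_sum]
    · simp

open scoped Classical in
/-- the obstruction -/
noncomputable def Chi (M : CoxeterMatrix B) (q : ℕ → B) (n : ℕ) (v0 : Vx B) (t : ℕ)
    (x : Sym2 B → ℤ) : ((i : Ix n t) → HI M q n v0 t x i) →ₗ[ℝ] (List (Vx B) → ℝ) where
  toFun ψ r := if r.getLast? = some (q t, x) then
    ∑ b : B, (∑ i, (ψ i).1 (r ++ [nb (q t, x) b 1]) + ∑ i, (ψ i).1 (r ++ [nb (q t, x) b (-1)]))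
    else 0
  map_add' ψ ψ' := by
    funext p
    simp only [Pi.add_apply, Submodule.coe_add, Finset.sum_add_distrib]
    split_ifs
    · ring
    · simp
  map_smul' c ψ := by
    funext p
    simp only [Pi.smul_apply, Submodule.coe_smul, RingHom.id_apply, smul_eq_mul]
    split_ifs
    · rw [Finset.mul_sum]
      apply Finset.sum_congr rfl
      intro b _
      simp only [← Finset.mul_sum]
      ring
    · simp

lemma Theta_concat (ψ : (i : Ix n t) → HI M q n v0 t x i) (r : List (Vx B)) :
    Theta M q n v0 t x ψ (r ++ [(q t, x)]) = ∑ i, (ψ i).1 r := by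
  show (if (r ++ [(q t, x)]).getLast? = some (q t, x) then
    ∑ i, (ψ i).1 (r ++ [(q t, x)]).dropLast else 0) = _
  rw [if_pos (by simp), List.dropLast_concat]

lemma Theta_ne {ψ : (i : Ix n t) → HI M q n v0 t x i} {p : List (Vx B)}
    (h : Theta M q n v0 t x ψ p ≠ 0) : ∃ r, p = r ++ [(q t, x)] ∧ ∃ i, (ψ i).1 r ≠ 0 := by
  have h1 : p.getLast? = some (q t, x) := by
    by_contra h2
    apply h
    show (if p.getLast? = some (q t, x) then ∑ i, (ψ i).1 p.dropLast else 0) = _
    rw [if_neg h2]
  obtain ⟨r, rfl⟩ : ∃ r, p = r ++ [(q t, x)] := by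
    rcases List.eq_nil_or_concat' p with rfl | ⟨r, w, rfl⟩
    · simp at h1
    · simp at h1
      exact ⟨r, by rw [h1]⟩
  refine ⟨r, rfl, ?_⟩
  rw [Theta_concat] at h
  obtain ⟨i, _, hi⟩ := Finset.exists_ne_zero_of_sum_ne_zero h
  exact ⟨i, hi⟩

include hq in
lemma sum_single (ψ : (i : Ix n t) → HI M q n v0 t x i) (i : Ix n t) {r : List (Vx B)}
    (h : r.getLast? = some (ww q t x i)) : ∑ j, (ψ j).1 r = (ψ i).1 r := by
  apply Finset.sum_eq_single
  · intro j _ hj
    by_contra h1
    have h2 := HI_last _ h1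
    rw [h] at h2
    exact hj (ww_inj hq (Option.some.inj h2)).symm
  · intro h1
    exact absurd (Finset.mem_univ _) h1

include hq in
lemma Theta_injective : Function.Injective (Theta M q n v0 t x) := by
  rw [injective_iff_map_eq_zero]
  intro ψ hψ
  funext i
  apply Subtype.ext
  funext r
  by_contra h
  have h1 := HI_last _ h
  have h2 := Theta_concat ψ r
  rw [hψ, sum_single hq ψ i h1] at h2
  exact h h2.symm

lemma nb_back (v : Vx B) (b : B) (e : Bool) : nb (nb v b (sgn e)) v.1 (sgn (!e)) = v := by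
  unfold nb
  ext1
  · rfl
  · show stp b v.1 (sgn (!e)) (stp v.1 b (sgn e) v.2) = v.2
    rw [stp_comm b, stp_stp]
    have : sgn (!e) + sgn e = 0 := by cases e <;> simp [sgn]
    rw [this, stp_zero]

lemma adj_nb {v : Vx B} {b : B} (hb : b ≠ v.1) (e : Bool) : Adj (nb v b (sgn e)) v := by
  refine ⟨hb, ?_⟩
  have h := nb_back v b e
  cases e
  · left
    have h1 : sgn (!false) = 1 := rfl
    rw [h1] at h
    exact h.symm
  · right
    have h1 : sgn (!true) = -1 := rfl
    rw [h1] at h
    exact h.symm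

include hq in
lemma Theta_mem (hx : InR M x) {ψ : (i : Ix n t) → HI M q n v0 t x i}
    (hχ : Chi M q n v0 t x ψ = 0) : Theta M q n v0 t x ψ ∈ HS M q v0 t x := by
  refine ⟨⟨?_, ?_⟩, ?_⟩
  · -- zero off paths
    intro p hp
    by_contra h
    obtain ⟨r, rfl, i, hi⟩ := Theta_ne h
    apply hp
    have hr : IsPath M r := by
      by_contra h1
      exact hi ((ψ i).2.1.1 r h1)
    have hl := HI_last _ hi
    refine ⟨by simp, ?_, ?_⟩
    · intro w hw
      rw [List.mem_append, List.mem_singleton] at hw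
      rcases hw with hw | hw
      · exact hr.2.1 w hw
      · rw [hw]; exact hx
    · rw [List.isChain_append]
      refine ⟨hr.2.2, List.isChain_singleton _, ?_⟩
      intro w hw u hu
      rw [Option.mem_def, hl] at hw
      have hw' := Option.some.inj hw
      simp at hu
      rw [← hu, ← hw']
      exact adj_nb (i.ne hq) _
  · -- mesh
    intro P u S
    rcases List.eq_nil_or_concat' S with rfl | ⟨S', w, rfl⟩
    · by_cases hu : u = (q t, x)
      · have h1 := congrFun hχ (P ++ [u])
        have h2 : Chi M q n v0 t x ψ (P ++ [u]) =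
            ∑ b : B, (∑ i, (ψ i).1 (P ++ [u] ++ [nb (q t, x) b 1]) +
              ∑ i, (ψ i).1 (P ++ [u] ++ [nb (q t, x) b (-1)])) := by
          show (if (P ++ [u]).getLast? = some (q t, x) then _ else _) = _
          rw [if_pos (by simp [hu])]
        rw [h2] at h1
        rw [Pi.zero_apply] at h1
        rw [← h1]
        apply Finset.sum_congr rfl
        intro b _
        have e1 : ∀ ε : ℤ, P ++ [u, nb u b ε, u] = (P ++ [u] ++ [nb (q t, x) b ε]) ++ [(q t, x)] := by
          intro ε
          rw [hu]; simp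
        rw [e1, e1, Theta_concat, Theta_concat]
      · apply Finset.sum_eq_zero
        intro b _
        have e1 : ∀ ε : ℤ, Theta M q n v0 t x ψ (P ++ [u, nb u b ε, u]) = 0 := by
          intro ε
          by_contra h
          obtain ⟨r, hr, _⟩ := Theta_ne h
          have := congrArg List.getLast? hr
          simp at this
          exact hu this
        rw [e1, e1, add_zero]
    · by_cases hw : w = (q t, x)
      · have e1 : ∀ y : Vx B, Theta M q n v0 t x ψ (P ++ u :: y :: u :: (S' ++ [w])) =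
            ∑ i, (ψ i).1 (P ++ u :: y :: u :: S') := by
          intro y
          have : P ++ u :: y :: u :: (S' ++ [w]) = (P ++ u :: y :: u :: S') ++ [(q t, x)] := by
            rw [hw]; simp
          rw [this, Theta_concat]
        simp only [e1]
        rw [Finset.sum_add_distrib, Finset.sum_comm, Finset.sum_comm (s := Finset.univ (α := B)),
          ← Finset.sum_add_distrib]
        apply Finset.sum_eq_zero
        intro i _
        rw [← Finset.sum_add_distrib]
        exact (ψ i).2.1.2 P u S'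
      · apply Finset.sum_eq_zero
        intro b _
        have e1 : ∀ ε : ℤ, Theta M q n v0 t x ψ (P ++ u :: nb u b ε :: u :: (S' ++ [w])) = 0 := by
          intro ε
          by_contra h
          obtain ⟨r, hr, _⟩ := Theta_ne h
          have := congrArg List.getLast? hr
          simp [List.getLast?_append, List.getLast?_cons] at this
          exact hw this
        rw [e1, e1, add_zero]
  · -- support
    intro p hp
    obtain ⟨r, rfl, i, hi⟩ := Theta_ne hp
    have h1 := (ψ i).2.2 r hi
    have hr : r ≠ [] := by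
      rintro rfl
      simp at h1
    refine ⟨?_, by simp, ?_⟩
    · rw [List.head?_append_of_ne_nil _ hr]
      exact h1.1
    · rw [wd_append, wd_cons, wd_nil, en_concat, h1.2.2]
      have h2 := i.lt
      have h3 := i.gt
      rw [nf_eq hq (t := t) (by omega) rfl (by omega)]

lemma Chi_ne {ψ : (i : Ix n t) → HI M q n v0 t x i} {r : List (Vx B)}
    (h : Chi M q n v0 t x ψ r ≠ 0) :
    r.getLast? = some (q t, x) ∧ ∃ b ε i, (ψ i).1 (r ++ [nb (q t, x) b ε]) ≠ 0 := by
  have h1 : r.getLast? = some (q t, x) := by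
    by_contra h2
    apply h
    show (if r.getLast? = some (q t, x) then _ else _) = _
    rw [if_neg h2]
  refine ⟨h1, ?_⟩
  have h2 : Chi M q n v0 t x ψ r = ∑ b : B, (∑ i, (ψ i).1 (r ++ [nb (q t, x) b 1]) +
      ∑ i, (ψ i).1 (r ++ [nb (q t, x) b (-1)])) := by
    show (if r.getLast? = some (q t, x) then _ else _) = _
    rw [if_pos h1]
  rw [h2] at h
  obtain ⟨b, _, hb⟩ := Finset.exists_ne_zero_of_sum_ne_zero h
  by_cases h3 : ∑ i, (ψ i).1 (r ++ [nb (q t, x) b 1]) = 0
  · rw [h3, zero_add] at hb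
    obtain ⟨i, _, hi⟩ := Finset.exists_ne_zero_of_sum_ne_zero hb
    exact ⟨b, -1, i, hi⟩
  · obtain ⟨i, _, hi⟩ := Finset.exists_ne_zero_of_sum_ne_zero h3
    exact ⟨b, 1, i, hi⟩

include hq in
lemma Chi_supp {ψ : (i : Ix n t) → HI M q n v0 t x i} {r : List (Vx B)}
    (h : Chi M q n v0 t x ψ r ≠ 0) :
    n ≤ t ∧ r.head? = some v0 ∧ r.getLast? = some (q (t - n), x) ∧ en q 0 (wd r) = t - n + 1 := by
  obtain ⟨h1, b, ε, i, hi⟩ := Chi_ne h
  have h2 := (ψ i).2.2 _ hi
  have hb : b = q i.1.1 := by
    have h3 := HI_last _ hi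
    simp at h3
    have := congrArg Prod.fst h3
    exact this
  obtain ⟨r0, rfl⟩ : ∃ r0, r = r0 ++ [(q t, x)] := by
    rcases List.eq_nil_or_concat' r with rfl | ⟨r, w, rfl⟩
    · simp at h1
    · simp at h1
      exact ⟨r, by rw [h1]⟩
  have h4 : en q 0 (wd (r0 ++ [(q t, x)])) = nf q (en q 0 (wd r0)) (q t) + 1 := by
    rw [wd_append, wd_cons, wd_nil, en_concat]
  set g := nf q (en q 0 (wd r0)) (q t) with hg
  have hqg : q g = q t := q_nf hq _ _
  have h5 : nf q (g + 1) (q i.1.1) = i.1.1 := by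
    have h6 := h2.2.2
    rw [wd_append, wd_cons, wd_nil, en_concat, h4] at h6
    have h7 : (nb (q t, x) b ε).1 = q i.1.1 := hb
    rw [h7] at h6
    omega
  have h6 := i.lt
  have h7 := i.gt
  have h8 := nf_ge hq (g + 1) (q i.1.1)
  have h9 : nf q (g + 1) (q i.1.1) < g + n := by
    apply nf_mid hq
    rw [hqg]
    exact i.ne hq
  rw [h5] at h8 h9
  have h10 : ¬ t < g + n := fun h11 => hq.uniq g t (by omega) h11 hqg
  have h11 : g + n = t := by
    by_contra h12
    have h13 : g + n < t := by omega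
    exact hq.uniq (g + n) t h13 (by omega) (by rw [hq.per, hqg])
  have h12 : g = t - n := by omega
  refine ⟨by omega, ?_, ?_, ?_⟩
  · have h13 := h2.1
    rw [List.head?_append_of_ne_nil _ (by simp)] at h13
    exact h13
  · rw [← h12, hqg]
    simp
  · rw [h4, h12]

include hq in
lemma Chi_mem (ψ : (i : Ix n t) → HI M q n v0 t x i) :
    Chi M q n v0 t x ψ ∈ HS M q v0 (t - n) x := by
  refine ⟨⟨?_, ?_⟩, fun p hp => (Chi_supp hq hp).2⟩
  · intro r hr
    by_contra h
    obtain ⟨h1, b, ε, i, hi⟩ := Chi_ne h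
    apply hr
    have h2 : IsPath M (r ++ [nb (q t, x) b ε]) := by
      by_contra h3
      exact hi ((ψ i).2.1.1 _ h3)
    apply h2.append_left
    rintro rfl
    simp at h1
  · intro P u S
    by_cases hl : (u :: S).getLast? = some (q t, x)
    · have e1 : ∀ y : Vx B, Chi M q n v0 t x ψ (P ++ u :: y :: u :: S) =
          ∑ b : B, (∑ i, (ψ i).1 (P ++ u :: y :: u :: (S ++ [nb (q t, x) b 1])) +
            ∑ i, (ψ i).1 (P ++ u :: y :: u :: (S ++ [nb (q t, x) b (-1)]))) := by
        intro y
        have h3 : (P ++ u :: y :: u :: S).getLast? = some (q t, x) := by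
          have : P ++ u :: y :: u :: S = (P ++ [u, y]) ++ (u :: S) := by simp
          rw [this, List.getLast?_append_of_ne_nil _ (by simp)]
          exact hl
        show (if (P ++ u :: y :: u :: S).getLast? = some (q t, x) then _ else _) = _
        rw [if_pos h3]
        simp
      simp only [e1]
      have e2 : ∀ (c : B) (ε : ℤ) (i : Ix n t), ∑ b : B,
          ((ψ i).1 (P ++ u :: nb u b 1 :: u :: (S ++ [nb (q t, x) c ε])) +
          (ψ i).1 (P ++ u :: nb u b (-1) :: u :: (S ++ [nb (q t, x) c ε]))) = 0 :=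
        fun c ε i => (ψ i).2.1.2 P u _
      have e3 : ∀ b : B, (∑ c : B,
          (∑ i, (ψ i).1 (P ++ u :: nb u b 1 :: u :: (S ++ [nb (q t, x) c 1])) +
            ∑ i, (ψ i).1 (P ++ u :: nb u b 1 :: u :: (S ++ [nb (q t, x) c (-1)]))) +
          ∑ c : B, (∑ i, (ψ i).1 (P ++ u :: nb u b (-1) :: u :: (S ++ [nb (q t, x) c 1])) +
            ∑ i, (ψ i).1 (P ++ u :: nb u b (-1) :: u :: (S ++ [nb (q t, x) c (-1)])))) =
          ∑ c : B, ∑ i, (((ψ i).1 (P ++ u :: nb u b 1 :: u :: (S ++ [nb (q t, x) c 1])) +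
            (ψ i).1 (P ++ u :: nb u b (-1) :: u :: (S ++ [nb (q t, x) c 1]))) +
            ((ψ i).1 (P ++ u :: nb u b 1 :: u :: (S ++ [nb (q t, x) c (-1)])) +
            (ψ i).1 (P ++ u :: nb u b (-1) :: u :: (S ++ [nb (q t, x) c (-1)])))) := by
        intro b
        rw [← Finset.sum_add_distrib]
        apply Finset.sum_congr rfl
        intro c _
        simp only [Finset.sum_add_distrib]
        ring
      simp only [e3]
      rw [Finset.sum_comm]
      apply Finset.sum_eq_zero
      intro c _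
      rw [Finset.sum_comm]
      apply Finset.sum_eq_zero
      intro i _
      rw [Finset.sum_add_distrib, e2, e2, add_zero]
    · apply Finset.sum_eq_zero
      intro b _
      have e1 : ∀ y : Vx B, Chi M q n v0 t x ψ (P ++ u :: y :: u :: S) = 0 := by
        intro y
        by_contra h
        have h3 := (Chi_ne h).1
        have : P ++ u :: y :: u :: S = (P ++ [u, y]) ++ (u :: S) := by simp
        rw [this, List.getLast?_append_of_ne_nil _ (by simp)] at h3
        exact hl h3
      rw [e1, e1, add_zero]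

/-- dimension -/
noncomputable def dm (M : CoxeterMatrix B) (q : ℕ → B) (v0 : Vx B) (t : ℕ) (x : Sym2 B → ℤ) : ℕ :=
  Module.finrank ℝ (HS M q v0 t x)

include hq in
lemma finrank_HI : Module.finrank ℝ ((i : Ix n t) → HI M q n v0 t x i) =
    ∑ t' ∈ (Finset.range t).filter (fun t' => t < t' + n),
      (dm M q v0 t' (stp (q t) (q t') 1 x) + dm M q v0 t' (stp (q t) (q t') (-1) x)) := by
  haveI : ∀ i : Ix n t, Module.Finite ℝ (HI M q n v0 t x i) := fun i => finite_HS hq _ _ _
  rw [Module.finrank_pi_fintype, Fintype.sum_prod_type]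
  conv_rhs => rw [← Finset.sum_coe_sort]
  apply Finset.sum_congr rfl
  intro t' _
  rw [Fintype.sum_bool]
  rfl

include hq in
/-- dimension inequality, `t ≥ n` -/
theorem dim_ge (ht : n ≤ t) (hx : InR M x) :
    ∑ t' ∈ (Finset.range t).filter (fun t' => t < t' + n),
      (dm M q v0 t' (stp (q t) (q t') 1 x) + dm M q v0 t' (stp (q t) (q t') (-1) x)) ≤
    dm M q v0 t x + dm M q v0 (t - n) x := by
  haveI : ∀ i : Ix n t, Module.Finite ℝ (HI M q n v0 t x i) := fun i => finite_HS hq _ _ _
  haveI h1 : Module.Finite ℝ (HS M q v0 t x) := finite_HS hq _ _ _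
  haveI h2 : Module.Finite ℝ (HS M q v0 (t - n) x) := finite_HS hq _ _ _
  rw [← finrank_HI hq]
  let f : ((i : Ix n t) → HI M q n v0 t x i) →ₗ[ℝ] HS M q v0 (t - n) x :=
    (Chi M q n v0 t x).codRestrict _ (fun ψ => Chi_mem hq ψ)
  let g : LinearMap.ker f →ₗ[ℝ] HS M q v0 t x :=
    ((Theta M q n v0 t x).comp (LinearMap.ker f).subtype).codRestrict _ (fun ψ => by
      apply Theta_mem hq hx
      have h3 := ψ.2
      rw [LinearMap.mem_ker] at h3
      exact congrArg Subtype.val h3)
  have hg : Function.Injective g := by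
    intro ψ ψ' h
    apply Subtype.ext
    apply Theta_injective hq
    exact congrArg Subtype.val h
  have h4 := LinearMap.finrank_range_add_finrank_ker f
  have h5 := LinearMap.finrank_le_finrank_of_injective hg
  have h6 : Module.finrank ℝ (LinearMap.range f) ≤ Module.finrank ℝ (HS M q v0 (t - n) x) :=
    Submodule.finrank_le _
  unfold dm
  omega

include hq in
lemma Chi_zero (ht : t < n) (ψ : (i : Ix n t) → HI M q n v0 t x i) :
    Chi M q n v0 t x ψ = 0 := by
  funext r
  by_contra h
  have := (Chi_supp hq h).1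
  omega

include hq in
/-- dimension inequality, `t < n` -/
theorem dim_lt (ht : t < n) (hx : InR M x) :
    ∑ t' ∈ (Finset.range t).filter (fun t' => t < t' + n),
      (dm M q v0 t' (stp (q t) (q t') 1 x) + dm M q v0 t' (stp (q t) (q t') (-1) x)) ≤
    dm M q v0 t x := by
  haveI : ∀ i : Ix n t, Module.Finite ℝ (HI M q n v0 t x i) := fun i => finite_HS hq _ _ _
  haveI h1 : Module.Finite ℝ (HS M q v0 t x) := finite_HS hq _ _ _
  rw [← finrank_HI hq]
  let g : ((i : Ix n t) → HI M q n v0 t x i) →ₗ[ℝ] HS M q v0 t x :=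
    (Theta M q n v0 t x).codRestrict _ (fun ψ => Theta_mem hq hx (Chi_zero hq ht ψ))
  have hg : Function.Injective g := by
    intro ψ ψ' h
    apply Theta_injective hq
    exact congrArg Subtype.val h
  exact LinearMap.finrank_le_finrank_of_injective hg

open scoped Classical in
/-- the trivial path -/
noncomputable def dlt (v0 : Vx B) : List (Vx B) → ℝ := fun p => if p = [v0] then 1 else 0

include hq in
lemma dlt_mem (ht : t < n) (hx : InR M x) : dlt (q t, x) ∈ HS M q (q t, x) t x := by
  refine ⟨⟨?_, ?_⟩, ?_⟩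
  · intro p hp
    unfold dlt
    rw [if_neg]
    rintro rfl
    apply hp
    refine ⟨by simp, ?_, List.isChain_singleton _⟩
    intro w hw
    rw [List.mem_singleton] at hw
    rw [hw]; exact hx
  · intro P u S
    apply Finset.sum_eq_zero
    intro b _
    have e1 : ∀ y : Vx B, dlt (q t, x) (P ++ u :: y :: u :: S) = 0 := by
      intro y
      unfold dlt
      rw [if_neg]
      intro h
      have := congrArg List.length h
      simp at this
      omega
    rw [e1, e1, add_zero]
  · intro p hp
    have h1 : p = [(q t, x)] := by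
      by_contra h
      apply hp
      unfold dlt
      rw [if_neg h]
    subst h1
    refine ⟨rfl, rfl, ?_⟩
    rw [wd_cons, wd_nil, en_cons, en_nil]
    rw [nf_eq hq (t := t) (by omega) rfl (by omega)]

include hq in
/-- dimension inequality, `t < n`, at the source -/
theorem dim_source (ht : t < n) (hx : InR M x) :
    1 + ∑ t' ∈ (Finset.range t).filter (fun t' => t < t' + n),
      (dm M q (q t, x) t' (stp (q t) (q t') 1 x) + dm M q (q t, x) t' (stp (q t) (q t') (-1) x)) ≤
    dm M q (q t, x) t x := by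
  haveI : ∀ i : Ix n t, Module.Finite ℝ (HI M q n (q t, x) t x i) := fun i => finite_HS hq _ _ _
  haveI h1 : Module.Finite ℝ (HS M q (q t, x) t x) := finite_HS hq _ _ _
  rw [← finrank_HI hq]
  let g0 : ((i : Ix n t) → HI M q n (q t, x) t x i) →ₗ[ℝ] HS M q (q t, x) t x :=
    (Theta M q n (q t, x) t x).codRestrict _ (fun ψ => Theta_mem hq hx (Chi_zero hq ht ψ))
  let d : HS M q (q t, x) t x := ⟨dlt (q t, x), dlt_mem hq ht hx⟩
  let g : (ℝ × ((i : Ix n t) → HI M q n (q t, x) t x i)) →ₗ[ℝ] HS M q (q t, x) t x :=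
    LinearMap.coprod (LinearMap.toSpanSingleton ℝ _ d) g0
  have hT : ∀ ψ : (i : Ix n t) → HI M q n (q t, x) t x i,
      Theta M q n (q t, x) t x ψ [(q t, x)] = 0 := by
    intro ψ
    have h := Theta_concat ψ []
    rw [List.nil_append] at h
    rw [h]
    apply Finset.sum_eq_zero
    intro i _
    exact (ψ i).2.1.1 [] (fun h => h.1 rfl)
  have hg : Function.Injective g := by
    rw [injective_iff_map_eq_zero]
    rintro ⟨c, ψ⟩ h
    have h2 : ∀ p, c * dlt (q t, x) p + Theta M q n (q t, x) t x ψ p = 0 := by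
      intro p
      have := congrFun (congrArg Subtype.val h) p
      simpa [g, g0, d, LinearMap.toSpanSingleton] using this
    have h3 := h2 [(q t, x)]
    rw [hT, add_zero] at h3
    have h4 : dlt (q t, x) [(q t, x)] = 1 := by unfold dlt; rw [if_pos rfl]
    rw [h4, mul_one] at h3
    subst h3
    have h5 : Theta M q n (q t, x) t x ψ = 0 := by
      funext p
      have := h2 p
      rw [zero_mul, zero_add] at this
      exact this
    have h6 : ψ = 0 := by
      apply Theta_injective hq
      rw [h5, map_zero]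
    rw [h6]
    rfl
  have h7 := LinearMap.finrank_le_finrank_of_injective hg
  rw [Module.finrank_prod, Module.finrank_self] at h7
  exact h7

end

end Pool.Agent.W296.MC
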