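import Pool.Agent.W296.MC.Defs

/-!
# Minimal non-faces of multi-cluster complexes: interface statements (S09493)
-/

set_option autoImplicit false

namespace Pool.Agent.W296.MC

open Pool.Agent.Helper741

section core

variable {B : Type} {M : CoxeterMatrix B} {W : Type} [Group W]
  (cs : CoxeterSystem M W)

/-- positions of the word `c^k` followed by the `c`-sorting word of `w0` -/
def InQ (q : ℕ → B) (n k τ : ℕ) : Prop := τ < k * n ∨ ∃ t, τ = k * n + t ∧ InG cs q t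

/-- faces of the multi-cluster complex, as sets of positions -/
def Face (q : ℕ → B) (n k : ℕ) (w0 : W) (I : Finset ℕ) : Prop :=
  ∃ J : Finset ℕ, (∀ x ∈ J, InQ cs q n k x) ∧ Disjoint I J ∧
    cs.wordProd ((J.sort (· ≤ ·)).map q) = w0 ∧ J.card = cs.length w0

end core

/-- the main theorem, in terms of positions in the periodic word -/
def Core : Prop :=
  ∀ (B : Type) [Fintype B] [DecidableEq B] (M : CoxeterMatrix B) (W : Type) [Group W] [Finite W]
    (cs : CoxeterSystem M W) (q : ℕ → B) (n : ℕ), Per q n →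
    ∀ w0 : W, (∀ w, cs.length w ≤ cs.length w0) →
    ∀ (k : ℕ) (I : Finset ℕ), (∀ x ∈ I, InQ cs q n k x) → ¬ Face cs q n k w0 I →
    (∀ x ∈ I, Face cs q n k w0 (I.erase x)) → I.card = k + 1

/-- greedy positions -/
noncomputable def gp {B : Type} (q : ℕ → B) : ℕ → List B → List ℕ
  | _, [] => []
  | τ, (b :: γ) => nf q τ b :: gp q (nf q τ b + 1) γ

/-- (SKIP) -/
def Skip : Prop :=
  ∀ (B : Type) (q : ℕ → B) (n : ℕ), Per q n → ∀ (γ : List B) (I : Finset ℕ) (k : ℕ),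
    (∃ L : List ℕ, L.Pairwise (· < ·) ∧ L.map q = γ ∧
      ∀ x ∈ L, x ∉ I ∧ ∃ g ∈ gp q 0 γ, ∃ η, η ≤ k ∧ x = g + η * n) ∨
    (∃ I' : Finset ℕ, I' ⊆ I ∧ I'.card = k + 1 ∧
      ∀ L : List ℕ, L.Pairwise (· < ·) → L.map q = γ → (∀ x ∈ L, x ∉ I') →
        ∀ h : L ≠ [], en q 0 γ + (k + 1) * n ≤ L.getLast h + 1)

/-- (ROOT) -/
def Root : Prop :=
  ∀ (B : Type) [Fintype B] [DecidableEq B] (M : CoxeterMatrix B) (W : Type) [Group W]
    (cs : CoxeterSystem M W) (q : ℕ → B) (n : ℕ), Per q n →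
    ∀ (s : B) (d0 : ℝ) (D : ℕ → ℝ), (∀ t, 0 ≤ D t) → (∀ t, ¬ InG cs q t → D t = 0) →
    (∀ t, t < n → (if q t = s then d0 else 0) +
      ∑ t' ∈ Finset.range t, 2 * cc M (q t) (q t') * D t' ≤ D t) →
    (∀ t, n ≤ t → ∑ t' ∈ Finset.Ico (t - n + 1) t, 2 * cc M (q t) (q t') * D t'
      ≤ D t + D (t - n)) →
    ∀ t, InG cs q t → d0 * (geo cs (gr cs q t) (ee (q t))) s ≤ D t

section weight

variable {B : Type} [Fintype B] [DecidableEq B] (M : CoxeterMatrix B)

/-- the label of a pair -/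
def Me (e : Sym2 B) : ℕ := Sym2.lift ⟨fun a b => M a b, fun a b => M.symmetric a b⟩ e

/-- the set of all coordinate functions in range, zero on the diagonal -/
noncomputable def RS : Finset (Sym2 B → ℤ) :=
  Fintype.piFinset (fun e => if e.IsDiag then {0} else Finset.Icc 0 ((Me M e : ℤ) - 2))

/-- the weight of a coordinate function -/
noncomputable def dw (x : Sym2 B → ℤ) : ℝ :=
  ∏ e : Sym2 B, if e.IsDiag then 1 else Real.sin (Real.pi * (x e + 1) / (Me M e : ℝ))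

end weight

/-- (WEIGHT) -/
def Weight : Prop :=
  ∀ (B : Type) [Fintype B] [DecidableEq B] (M : CoxeterMatrix B), (∀ a b, M a b ≠ 0) →
    (∀ x, x ∈ RS M ↔ InR M x ∧ ∀ a, x s(a, a) = 0) ∧
    (∀ x ∈ RS M, 0 < dw M x) ∧
    ∀ (a b : B), a ≠ b → ∀ h : (Sym2 B → ℤ) → ℝ, (∀ x, x ∉ RS M → h x = 0) →
      ∑ x ∈ RS M, dw M x * (h (stp a b 1 x) + h (stp a b (-1) x)) =
        2 * cc M a b * ∑ x ∈ RS M, dw M x * h x

end Pool.Agent.W296.MC
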