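import Pool.Agent.W296.MC.Dim
import Pool.Agent.W296.MC.Iface

/-!
# Existence of alive paths
-/

set_option autoImplicit false

namespace Pool.Agent.W296.MC

open Pool.Agent.Helper741

variable {B : Type} [Fintype B] [DecidableEq B] {M : CoxeterMatrix B}

omit [Fintype B] in
lemma diag_zero (p : List (Vx B)) : ∀ v : Vx B, (v :: p).IsChain Adj → (∀ a, v.2 s(a, a) = 0) →
    ∀ w ∈ v :: p, ∀ a, w.2 s(a, a) = 0 := by
  induction p with
  | nil =>
    intro v _ h w hw
    rw [List.mem_singleton] at hw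
    rw [hw]; exact h
  | cons u p ih =>
    intro v h1 h w hw a
    rw [List.isChain_cons_cons] at h1
    rw [List.mem_cons] at hw
    rcases hw with hw | hw
    · rw [hw]; exact h a
    · apply ih u h1.2 _ w hw
      intro c
      have key : ∀ ε : ℤ, (nb v u.1 ε).2 s(c, c) = 0 := by
        intro ε
        show stp v.1 u.1 ε v.2 s(c, c) = 0
        unfold stp
        rw [Function.update_of_ne]
        · exact h c
        · intro h2
          rw [eq_comm, Sym2.eq_iff] at h2
          rcases h2 with h2 | h2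
          · exact h1.1.1 (h2.1.trans h2.2.symm)
          · exact h1.1.1 (h2.1.trans h2.2.symm)
      rcases h1.1.2 with h2 | h2
      · rw [h2]; exact key 1
      · rw [h2]; exact key (-1)

lemma HS_last {q : ℕ → B} {s : B} {t : ℕ} {x : Sym2 B → ℤ} {φ : List (Vx B) → ℝ}
    (h : φ ∈ HS M q (s, 0) t x) {p : List (Vx B)} (hp : φ p ≠ 0) :
    InR M x ∧ ∀ a, x s(a, a) = 0 := by
  have h1 : IsPath M p := by
    by_contra h2
    exact hp (h.1.1 p h2)
  obtain ⟨h2, h3, -⟩ := h.2 p hp
  have h4 : (q t, x) ∈ p := List.mem_of_getLast? h3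
  refine ⟨h1.2.1 _ h4, ?_⟩
  rcases p with _ | ⟨v, p⟩
  · simp at h2
  · simp at h2
    subst h2
    exact diag_zero p _ h1.2.2 (fun a => rfl) _ h4

lemma dm_eq_zero {q : ℕ → B} {v0 : Vx B} {t : ℕ} {x : Sym2 B → ℤ}
    (h : ∀ φ ∈ HS M q v0 t x, ∀ p, φ p = 0) : dm M q v0 t x = 0 := by
  have h1 : HS M q v0 t x = ⊥ := by
    rw [eq_bot_iff]
    intro φ hφ
    rw [Submodule.mem_bot]
    funext p
    exact h φ hφ p
  unfold dm
  rw [h1, finrank_bot]

lemma exists_of_dm {q : ℕ → B} {v0 : Vx B} {t : ℕ} {x : Sym2 B → ℤ}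
    (h : dm M q v0 t x ≠ 0) : ∃ φ ∈ HS M q v0 t x, ∃ p, φ p ≠ 0 := by
  by_contra h1
  push Not at h1
  exact h (dm_eq_zero h1)

/-- total weighted dimension -/
noncomputable def DD (M : CoxeterMatrix B) (q : ℕ → B) (s : B) (t : ℕ) : ℝ :=
  ∑ x ∈ RS M, dw M x * (dm M q (s, 0) t x : ℝ)

lemma RS_zero (hM : ∀ a b, M a b ≠ 0) (hW : Weight) : (0 : Sym2 B → ℤ) ∈ RS M := by
  rw [(hW B M hM).1]
  refine ⟨fun a b hab => ⟨le_refl _, ?_⟩, fun a => rfl⟩
  have := two_le_of_ne M hab (hM a b)
  simp only [Pi.zero_apply]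
  omega

lemma DD_window (hM : ∀ a b, M a b ≠ 0) (hW : Weight) {q : ℕ → B} (s : B) (t : ℕ)
    (F : Finset ℕ) (hF : ∀ t' ∈ F, q t ≠ q t') :
    ∑ t' ∈ F, 2 * cc M (q t) (q t') * DD M q s t' =
    ∑ x ∈ RS M, dw M x * ((∑ t' ∈ F, (dm M q (s, 0) t' (stp (q t) (q t') 1 x) +
      dm M q (s, 0) t' (stp (q t) (q t') (-1) x)) : ℕ) : ℝ) := by
  have e1 : ∀ x, dw M x * ((∑ t' ∈ F, (dm M q (s, 0) t' (stp (q t) (q t') 1 x) +
      dm M q (s, 0) t' (stp (q t) (q t') (-1) x)) : ℕ) : ℝ) =
      ∑ t' ∈ F, dw M x * ((dm M q (s, 0) t' (stp (q t) (q t') 1 x) : ℝ) +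
      (dm M q (s, 0) t' (stp (q t) (q t') (-1) x) : ℝ)) := by
    intro x
    push_cast
    rw [Finset.mul_sum]
  simp only [e1]
  rw [Finset.sum_comm]
  apply Finset.sum_congr rfl
  intro t' ht'
  have h := (hW B M hM).2.2 (q t) (q t') (hF t' ht') (fun x => (dm M q (s, 0) t' x : ℝ)) (by
    intro x hx
    rw [(hW B M hM).1] at hx
    have : dm M q (s, 0) t' x = 0 := by
      apply dm_eq_zero
      intro φ hφ p
      by_contra hp
      exact hx (HS_last hφ hp)
    simp only [this, Nat.cast_zero])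
  rw [h]
  rfl

variable {W : Type} [Group W] (cs : CoxeterSystem M W)

/-- (G2) -/
theorem G2 (hM : ∀ a b, M a b ≠ 0) (hW : Weight) (hR : Root) {q : ℕ → B} {n : ℕ}
    (hq : Per q n) {t : ℕ} (ht : InG cs q t) {s : B}
    (hs : 0 < (geo cs (gr cs q t) (ee (q t))) s) :
    ∃ φ : List (Vx B) → ℝ, ∃ v p, Harm M φ ∧ φ (v :: p) ≠ 0 ∧ v.1 = s ∧
      en q 0 (wd (v :: p)) = t + 1 := by
  have hpos := (hW B M hM).2.1
  have h0 : 0 < dw M (0 : Sym2 B → ℤ) := hpos _ (RS_zero hM hW)
  have hin : ∀ x ∈ RS M, InR M x := fun x hx => (((hW B M hM).1 x).mp hx).1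
  have key := hR B M W cs q n hq s (dw M 0) (DD M q s) ?_ ?_ ?_ ?_ t ht
  · have h1 : 0 < DD M q s t := lt_of_lt_of_le (mul_pos h0 hs) key
    obtain ⟨x, hx, hx'⟩ := Finset.exists_ne_zero_of_sum_ne_zero (ne_of_gt h1)
    have h2 : dm M q (s, 0) t x ≠ 0 := by
      intro h3
      apply hx'
      rw [h3, Nat.cast_zero, mul_zero]
    obtain ⟨φ, hφ, p, hp⟩ := exists_of_dm h2
    have h3 := hφ.2 p hp
    rcases p with _ | ⟨v, p⟩
    · simp at h3
    · refine ⟨φ, v, p, hφ.1, hp, ?_, h3.2.2⟩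
      have h4 := h3.1
      simp at h4
      rw [h4]
  · intro t
    apply Finset.sum_nonneg
    intro x hx
    exact mul_nonneg (hpos x hx).le (Nat.cast_nonneg _)
  · intro t ht
    apply Finset.sum_eq_zero
    intro x _
    have : dm M q (s, 0) t x = 0 := by
      apply dm_eq_zero
      intro φ hφ p
      by_contra hp
      exact ht (G1 hM hq hφ.1 hp (hφ.2 p hp).2.2)
    rw [this, Nat.cast_zero, mul_zero]
  · intro t ht
    have hF : (Finset.range t).filter (fun t' => t < t' + n) = Finset.range t := by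
      apply Finset.filter_true_of_mem
      intro t' _
      omega
    rw [DD_window hM hW s t (Finset.range t) (fun t' ht' => by
      rw [Finset.mem_range] at ht'
      exact (hq.uniq t' t ht' (by omega)).symm)]
    by_cases hqs : q t = s
    · rw [if_pos hqs]
      have e1 : dw M (0 : Sym2 B → ℤ) = ∑ x ∈ RS M, dw M x * (if x = 0 then 1 else 0) := by
        rw [Finset.sum_eq_single (0 : Sym2 B → ℤ)]
        · rw [if_pos rfl, mul_one]
        · intro x _ hx
          rw [if_neg hx, mul_zero]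
        · intro h; exact absurd (RS_zero hM hW) h
      rw [e1, ← Finset.sum_add_distrib]
      apply Finset.sum_le_sum
      intro x hx
      rw [← mul_add]
      apply mul_le_mul_of_nonneg_left _ (hpos x hx).le
      by_cases hx0 : x = 0
      · rw [if_pos hx0]
        have h1 := dim_source hq ht (hin x hx)
        rw [hF] at h1
        subst hx0
        rw [hqs] at h1 ⊢
        exact_mod_cast h1
      · rw [if_neg hx0, zero_add]
        have h1 := dim_lt (v0 := (s, 0)) hq ht (hin x hx)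
        rw [hF] at h1
        exact_mod_cast h1
    · rw [if_neg hqs, zero_add]
      apply Finset.sum_le_sum
      intro x hx
      apply mul_le_mul_of_nonneg_left _ (hpos x hx).le
      have h1 := dim_lt (v0 := (s, 0)) hq ht (hin x hx)
      rw [hF] at h1
      exact_mod_cast h1
  · intro t ht
    have hF : (Finset.range t).filter (fun t' => t < t' + n) = Finset.Ico (t - n + 1) t := by
      ext t'
      rw [Finset.mem_filter, Finset.mem_range, Finset.mem_Ico]
      omega
    rw [DD_window hM hW s t (Finset.Ico (t - n + 1) t) (fun t' ht' => by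
      rw [Finset.mem_Ico] at ht'
      exact (hq.uniq t' t ht'.2 (by omega)).symm)]
    unfold DD
    rw [← Finset.sum_add_distrib]
    apply Finset.sum_le_sum
    intro x hx
    rw [← mul_add]
    apply mul_le_mul_of_nonneg_left _ (hpos x hx).le
    have h1 := dim_ge (v0 := (s, 0)) hq ht (hin x hx)
    rw [hF] at h1
    exact_mod_cast h1

end Pool.Agent.W296.MC
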