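import Pool.Agent.W296.MC.G2

/-!
# Greedy words, the element `w0`, sortability
-/

set_option autoImplicit false

namespace Pool.Agent.W296.MC

open Pool.Agent.Helper741

variable {B : Type} {M : CoxeterMatrix B} {W : Type} [Group W] (cs : CoxeterSystem M W)

lemma length_gr_succ {q : ℕ → B} {t : ℕ} (h : InG cs q t) :
    cs.length (gr cs q (t + 1)) = cs.length (gr cs q t) + 1 := by
  rw [gr_succ_pos cs h]
  unfold InG at h
  rcases cs.length_mul_simple (gr cs q t) (q t) with h1 | h1 <;> omega

lemma length_gr_mono {q : ℕ → B} {t t' : ℕ} (h : t ≤ t') :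
    cs.length (gr cs q t) ≤ cs.length (gr cs q t') := by
  induction t', h using Nat.le_induction with
  | base => exact le_rfl
  | succ t' _ ih =>
    by_cases h1 : InG cs q t'
    · have := length_gr_succ cs h1
      omega
    · rw [gr_succ_neg cs h1]; exact ih

variable {cs}

lemma exists_ascent [Fintype B] [DecidableEq B] {w0 : W}
    (hw0 : ∀ w, cs.length w ≤ cs.length w0) {u : W} (hu : u ≠ w0) :
    ∃ b, cs.length u < cs.length (u * cs.simple b) := by
  have h1 : w0 * u ≠ 1 := by
    intro h
    apply hu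
    have h2 := longest_sq hw0
    have h3 : w0 * u = w0 * w0 := by rw [h, h2]
    exact mul_left_cancel h3
  obtain ⟨b, hb⟩ := cs.exists_rightDescent_of_ne_one h1
  have hb' : cs.length (w0 * u * cs.simple b) + 1 = cs.length (w0 * u) :=
    cs.isRightDescent_iff.mp hb
  have h2 := longest_mul hw0 u
  have h3 := longest_mul hw0 (u * cs.simple b)
  rw [← mul_assoc] at h3
  exact ⟨b, by omega⟩

lemma not_InG_w0 {w0 : W} (hw0 : ∀ w, cs.length w ≤ cs.length w0) {q : ℕ → B} {t : ℕ}
    (h : gr cs q t = w0) : ¬ InG cs q t := by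
  unfold InG
  rw [h]
  exact not_lt_of_longest hw0 _

lemma gr_w0 {w0 : W} (hw0 : ∀ w, cs.length w ≤ cs.length w0) {q : ℕ → B} {t t' : ℕ}
    (h : gr cs q t = w0) (htt : t ≤ t') : gr cs q t' = w0 := by
  induction t', htt using Nat.le_induction with
  | base => exact h
  | succ t' _ ih => rw [gr_succ_neg cs (not_InG_w0 hw0 ih)]; exact ih

lemma length_window [Fintype B] [DecidableEq B] {w0 : W}
    (hw0 : ∀ w, cs.length w ≤ cs.length w0) {q : ℕ → B} {n : ℕ} (hq : Per q n) {τ : ℕ}
    (h : gr cs q τ ≠ w0) : cs.length (gr cs q τ) < cs.length (gr cs q (τ + n)) := by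
  obtain ⟨b, hb⟩ := exists_ascent hw0 h
  have h1 := nf_ge hq τ b
  have h2 := nf_lt hq τ b
  by_cases h3 : cs.length (gr cs q τ) < cs.length (gr cs q (nf q τ b))
  · exact lt_of_lt_of_le h3 (length_gr_mono cs (by omega))
  · -- nothing happened in between
    have h4 : ∀ t, τ ≤ t → t ≤ nf q τ b → gr cs q t = gr cs q τ := by
      intro t ht
      induction t, ht using Nat.le_induction with
      | base => intro _; rfl
      | succ t ht ih =>
        intro h5
        have h6 := ih (by omega)
        by_cases h7 : InG cs q t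
        · exfalso
          have h8 := length_gr_succ cs h7
          rw [h6] at h8
          have h9 := length_gr_mono cs (q := q) h5
          omega
        · rw [gr_succ_neg cs h7, h6]
    have h5 := h4 _ h1 le_rfl
    have h6 : InG cs q (nf q τ b) := by
      unfold InG
      rw [h5, q_nf hq]
      exact hb
    have h7 := length_gr_succ cs h6
    rw [h5] at h7
    have h8 := length_gr_mono cs (q := q) (show nf q τ b + 1 ≤ τ + n by omega)
    omega

/-- the greedy product reaches `w0` -/
lemma exists_gr_w0 [Fintype B] [DecidableEq B] {w0 : W}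
    (hw0 : ∀ w, cs.length w ≤ cs.length w0) {q : ℕ → B} {n : ℕ} (hq : Per q n) :
    gr cs q (cs.length w0 * n) = w0 := by
  have key : ∀ i, i ≤ cs.length (gr cs q (i * n)) ∨ gr cs q (i * n) = w0 := by
    intro i
    induction i with
    | zero => left; omega
    | succ i ih =>
      by_cases h : gr cs q (i * n) = w0
      · right
        exact gr_w0 hw0 h (by rw [Nat.succ_mul]; omega)
      · left
        have h1 := ih.resolve_right h
        have h2 := length_window hw0 hq h
        have h3 : (i + 1) * n = i * n + n := by ring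
        rw [h3]
        omega
  by_contra hne
  have h1 := (key (cs.length w0)).resolve_right hne
  obtain ⟨b, hb⟩ := exists_ascent hw0 hne
  have := hw0 (gr cs q (cs.length w0 * n) * cs.simple b)
  omega

variable [Fintype B] [DecidableEq B]

lemma geo_gr_nonneg {q : ℕ → B} {t : ℕ} (h : InG cs q t) :
    0 ≤ geo cs (gr cs q t) (ee (q t)) := geo_nonneg cs _ _ h

lemma cc_nonneg (hM : ∀ a b, M a b ≠ 0) {a b : B} (h : a ≠ b) : 0 ≤ cc M a b := by
  unfold cc
  apply Real.cos_nonneg_of_mem_Icc
  have h1 := two_le_of_ne M h (hM a b)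
  have h2 : (2 : ℝ) ≤ (M a b : ℝ) := by exact_mod_cast h1
  constructor
  · have : 0 ≤ Real.pi / (M a b : ℝ) := by positivity
    have := Real.pi_pos
    linarith
  · apply div_le_div_of_nonneg_left Real.pi_pos.le (by norm_num) h2

/-- telescoping -/
lemma tele (hM : ∀ a b, M a b ≠ 0) {q : ℕ → B} {a : B} {t0 t : ℕ} (htt : t0 ≤ t)
    (h : ∀ t', t0 ≤ t' → t' < t → InG cs q t' → q t' ≠ a) :
    geo cs (gr cs q t0) (ee a) ≤ geo cs (gr cs q t) (ee a) := by
  induction t, htt using Nat.le_induction with
  | base => exact le_rfl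
  | succ t ht ih =>
    have h1 := ih (fun t' h1 h2 h3 => h t' h1 (by omega) h3)
    by_cases h2 : InG cs q t
    · have h3 := h t ht (by omega) h2
      rw [gr_succ_pos cs h2, map_mul, Module.End.mul_apply, geo_simple, sg_ee, map_add, map_smul]
      refine h1.trans ?_
      rw [le_add_iff_nonneg_right]
      exact smul_nonneg (mul_nonneg (by norm_num) (cc_nonneg hM h3.symm)) (geo_gr_nonneg h2)
    · rw [gr_succ_neg cs h2]; exact h1

/-- the last greedy position with a given letter -/
lemma exists_last (hM : ∀ a b, M a b ≠ 0) {w0 : W} (hw0 : ∀ w, cs.length w ≤ cs.length w0)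
    {q : ℕ → B} {n : ℕ} (hq : Per q n) (a : B) :
    ∃ t, InG cs q t ∧ q t = a ∧ ∀ t', InG cs q t' → q t' = a → t' ≤ t := by
  classical
  set T := cs.length w0 * n with hT
  have hTw : gr cs q T = w0 := exists_gr_w0 hw0 hq
  have hlt : ∀ t, InG cs q t → t < T := by
    intro t ht
    by_contra h
    exact not_InG_w0 hw0 (gr_w0 hw0 hTw (by omega)) ht
  have hex : ∃ t, InG cs q t ∧ q t = a := by
    by_contra hcon
    push Not at hcon
    have h1 := tele hM (cs := cs) (q := q) (a := a) (t0 := 0) (t := T) (by omega)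
      (fun t' _ _ h3 => hcon t' h3)
    have h2 : geo cs (gr cs q 0) (ee a) = ee a := by
      show geo cs 1 (ee a) = ee a
      rw [map_one, Module.End.one_apply]
    rw [h2, hTw] at h1
    have h3 := longest_neg hw0 (ee a) (ee_nonneg a)
    exact ee_ne_zero a (le_antisymm (h1.trans h3) (ee_nonneg a))
  set S := (Finset.range T).filter (fun t => InG cs q t ∧ q t = a) with hS
  have hSne : S.Nonempty := by
    obtain ⟨t, h1, h2⟩ := hex
    exact ⟨t, by rw [hS, Finset.mem_filter, Finset.mem_range]; exact ⟨hlt t h1, h1, h2⟩⟩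
  refine ⟨S.max' hSne, ?_, ?_, ?_⟩
  · exact (Finset.mem_filter.mp (S.max'_mem hSne)).2.1
  · exact (Finset.mem_filter.mp (S.max'_mem hSne)).2.2
  · intro t' h1 h2
    apply Finset.le_max'
    rw [hS, Finset.mem_filter, Finset.mem_range]
    exact ⟨hlt t' h1, h1, h2⟩

/-- greedy positions below `T`, from `τ` on -/
noncomputable def gl (cs : CoxeterSystem M W) (q : ℕ → B) (T : ℕ) : List ℕ := by
  classical exact (List.range T).filter (fun t => InG cs q t)

omit [Fintype B] [DecidableEq B] in
lemma gl_succ_pos {q : ℕ → B} {T : ℕ} (h : InG cs q T) : gl cs q (T + 1) = gl cs q T ++ [T] := by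
  unfold gl
  rw [List.range_succ, List.filter_append]
  simp [h]

omit [Fintype B] [DecidableEq B] in
lemma gl_succ_neg {q : ℕ → B} {T : ℕ} (h : ¬ InG cs q T) : gl cs q (T + 1) = gl cs q T := by
  unfold gl
  rw [List.range_succ, List.filter_append]
  simp [h]

omit [Fintype B] [DecidableEq B] in
lemma mem_gl {q : ℕ → B} {T t : ℕ} : t ∈ gl cs q T ↔ t < T ∧ InG cs q t := by
  unfold gl
  simp

omit [Fintype B] [DecidableEq B] in
lemma gl_sorted {q : ℕ → B} {T : ℕ} : (gl cs q T).Pairwise (· < ·) := by
  unfold gl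
  exact List.Pairwise.filter _ List.pairwise_lt_range

omit [Fintype B] [DecidableEq B] in
lemma gl_prod (q : ℕ → B) (T : ℕ) : cs.wordProd ((gl cs q T).map q) = gr cs q T := by
  induction T with
  | zero => unfold gl; simp [gr]
  | succ T ih =>
    by_cases h : InG cs q T
    · rw [gl_succ_pos h, List.map_append, cs.wordProd_append, ih, gr_succ_pos cs h]
      simp
    · rw [gl_succ_neg h, ih, gr_succ_neg cs h]

omit [Fintype B] [DecidableEq B] in
lemma gl_length (q : ℕ → B) (T : ℕ) : (gl cs q T).length = cs.length (gr cs q T) := by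
  induction T with
  | zero => unfold gl; simp [gr]
  | succ T ih =>
    by_cases h : InG cs q T
    · rw [gl_succ_pos h, List.length_append, ih, length_gr_succ cs h]
      simp
    · rw [gl_succ_neg h, ih, gr_succ_neg cs h]

omit [Fintype B] [DecidableEq B] in
lemma gl_reduced (q : ℕ → B) (T : ℕ) : cs.IsReduced ((gl cs q T).map q) := by
  unfold CoxeterSystem.IsReduced
  rw [gl_prod, List.length_map, gl_length]

/-- sortability -/
theorem sortable (hM : ∀ a b, M a b ≠ 0) (hW : Weight) (hR : Root) {q : ℕ → B} {n : ℕ}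
    (hq : Per q n) {t : ℕ} (ht : InG cs q t) (hn : n ≤ t) : InG cs q (t - n) := by
  have h1 := geo_gr_nonneg ht
  have h2 := geo_ee_ne_zero cs (gr cs q t) (q t)
  obtain ⟨s, hs⟩ : ∃ s, 0 < (geo cs (gr cs q t) (ee (q t))) s := by
    by_contra hcon
    push Not at hcon
    exact h2 (le_antisymm (fun s => hcon s) h1)
  obtain ⟨φ, v, p, hφ, hp, _, hen⟩ := G2 cs hM hW hR hq ht hs
  obtain ⟨γ₁, γ₂, h3, h4, h5⟩ := en_suffix hq (wd (v :: p)) 0 (by omega) (by omega)
  obtain ⟨p1, p2, h6, h7, h8⟩ := List.map_eq_append_iff.mp h3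
  have h9 : p2 ≠ [] := by
    rintro rfl
    exact h4 h8.symm
  have h10 : shl p1 φ p2 ≠ 0 := by
    rw [shl_of_ne _ _ h9, ← h6]; exact hp
  apply G1 hM hq (hφ.shl p1) h10
  have h11 : wd p2 = γ₂ := h8
  rw [h11]
  omega

end Pool.Agent.W296.MC
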