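import Pool.Agent.W296.MC.Braid

/-!
# Matsumoto's theorem for the annihilators, Demazure products
-/

set_option autoImplicit false

namespace Pool.Agent.W296.MC

open CoxeterSystem Pool.Agent.Helper741

section mats

variable {B : Type*} {M : CoxeterMatrix B} [Fintype B] [DecidableEq B]
variable {W : Type*} [Group W] (cs : CoxeterSystem M W)

/-- **Matsumoto's theorem**. -/
theorem matsumoto' {G : Type*} [Monoid G] (f : B → G)
    (hf : ∀ i j, alt (f i) (f j) (M i j) = alt (f j) (f i) (M i j))
    (ω ω' : List B) (h : cs.IsReduced ω) (h' : cs.IsReduced ω')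
    (heq : cs.wordProd ω = cs.wordProd ω') : (ω.map f).prod = (ω'.map f).prod := by
  induction hn : ω.length using Nat.strong_induction_on generalizing ω ω' with
  | _ n ih =>
  have hlen : ω.length = ω'.length := by
    rw [← h.eq, ← h'.eq, heq]
  -- same first letter
  have same : ∀ (i : B) (α β : List B), cs.IsReduced (i :: α) → cs.IsReduced (i :: β) →
      cs.wordProd (i :: α) = cs.wordProd (i :: β) → (i :: α).length = n →
      ((i :: α).map f).prod = ((i :: β).map f).prod := by
    intro i α β hα hβ hαβ hl
    rw [List.map_cons, List.map_cons, List.prod_cons, List.prod_cons]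
    congr 1
    rw [cs.wordProd_cons, cs.wordProd_cons] at hαβ
    apply ih α.length (by rw [← hl]; simp) α β (by simpa using hα.drop 1)
      (by simpa using hβ.drop 1) (mul_left_cancel hαβ) rfl
  match ω, ω' with
  | [], [] => rfl
  | [], _ :: _ => simp at hlen
  | _ :: _, [] => simp at hlen
  | i :: ω₁, j :: ω₂ =>
    by_cases hij : i = j
    · subst hij
      exact same i ω₁ ω₂ h h' heq hn
    · set w := cs.wordProd (i :: ω₁) with hw
      have hwl : cs.length w = n := by rw [hw, h.eq, hn]
      have hdi : cs.length (cs.simple i * w) < cs.length w := by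
        have h1 := cs.length_wordProd_le ω₁
        rw [hwl, hw, cs.wordProd_cons, cs.simple_mul_simple_cancel_left]
        simp only [List.length_cons] at hn
        omega
      have hdj : cs.length (cs.simple j * w) < cs.length w := by
        have h1 := cs.length_wordProd_le ω₂
        rw [hwl, heq, cs.wordProd_cons, cs.simple_mul_simple_cancel_left]
        simp only [List.length_cons] at hn hlen
        omega
      have h0 : M i j ≠ 0 := by
        intro h0
        obtain ⟨u, hu1, hu2⟩ := exists_aw_front cs w (n + 1) i j hij (Or.inl h0) hdi hdj
        have h2 := hu1.eq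
        rw [hu2, hwl, List.length_append, aw_length] at h2
        omega
      have h2 := two_le_of_ne M hij h0
      obtain ⟨u, hu1, hu2⟩ := exists_aw_front cs w (M i j) i j hij (Or.inr le_rfl) hdi hdj
      obtain ⟨v, hv1, hv2⟩ := exists_aw_front cs w (M i j) j i (Ne.symm hij)
        (Or.inr (by rw [M.symmetric j i])) hdj hdi
      obtain ⟨m, hm⟩ : ∃ m, M i j = m + 1 := ⟨M i j - 1, by omega⟩
      have e1 : ((i :: ω₁).map f).prod = ((aw i j (M i j) ++ u).map f).prod := by
        rw [hm, aw_succ, List.cons_append]
        rw [hm, aw_succ, List.cons_append] at hu1 hu2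
        exact same i ω₁ _ h hu1 (by rw [hu2]) hn
      have e2 : ((j :: ω₂).map f).prod = ((aw j i (M i j) ++ v).map f).prod := by
        rw [hm, aw_succ, List.cons_append]
        rw [hm, aw_succ, List.cons_append] at hv1 hv2
        exact same j ω₂ _ h' hv1 (by rw [hv2, ← heq]) (by rw [← hlen, hn])
      have e3 : cs.wordProd u = cs.wordProd v := by
        have h3 := hu2.trans hv2.symm
        rw [cs.wordProd_append, cs.wordProd_append, wordProd_aw, wordProd_aw,
          alt_comm_of_pow (cs.simple_mul_simple_self i) (cs.simple_mul_simple_self j)
            (cs.simple_mul_simple_pow i j)] at h3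
        exact mul_left_cancel h3
      have hul : (aw i j (M i j) ++ u).length = n := by rw [← hu1.eq, hu2, hwl]
      have e4 : (u.map f).prod = (v.map f).prod := by
        apply ih u.length (by rw [List.length_append, aw_length] at hul; omega) u v
          (by simpa using hu1.drop (M i j)) (by simpa using hv1.drop (M i j)) e3 rfl
      rw [e1, e2, List.map_append, List.map_append, List.prod_append, List.prod_append, aw_prod,
        aw_prod, e4, hf i j]


end mats

variable {B : Type} [Fintype B] [DecidableEq B] {M : CoxeterMatrix B}

/-- congruence of words with the same annihilator -/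
def anCon (M : CoxeterMatrix B) : Con (FreeMonoid B) where
  r x y := An M x.toList = An M y.toList
  iseqv := ⟨fun _ => rfl, fun h => h.symm, fun h h' => h.trans h'⟩
  mul' := by
    intro w x y z h1 h2
    rw [FreeMonoid.toList_mul, FreeMonoid.toList_mul]
    apply Set.Subset.antisymm
    · exact (An_append_right h1.subset _).trans (An_append_left h2.subset _)
    · exact (An_append_right h1.symm.subset _).trans (An_append_left h2.symm.subset _)

lemma An_braid_eq {a b : B} (hm : M a b ≠ 0) :
    An M (aw a b (M a b)) = An M (aw b a (M a b)) := by
  by_cases hab : a = b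
  · subst hab; rfl
  · apply Set.Subset.antisymm
    · exact An_braid hab hm
    · have h := An_braid (M := M) (Ne.symm hab) (by rwa [M.symmetric b a])
      rwa [M.symmetric b a] at h

lemma anCon_prod (ω : List B) :
    (ω.map (fun b => ((FreeMonoid.of b : FreeMonoid B) : (anCon M).Quotient))).prod =
      ((FreeMonoid.ofList ω : FreeMonoid B) : (anCon M).Quotient) := by
  induction ω with
  | nil => rfl
  | cons b ω ih =>
    rw [List.map_cons, List.prod_cons, ih, ← Con.coe_mul]
    rfl

variable {W : Type} [Group W] (cs : CoxeterSystem M W)

/-- reduced words of the same element have the same annihilator -/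
theorem An_reduced (hM : ∀ a b, M a b ≠ 0) {ω ω' : List B} (h : cs.IsReduced ω)
    (h' : cs.IsReduced ω') (heq : cs.wordProd ω = cs.wordProd ω') : An M ω = An M ω' := by
  have h1 := matsumoto' cs
    (fun b => ((FreeMonoid.of b : FreeMonoid B) : (anCon M).Quotient)) ?_ ω ω' h h' heq
  · rw [anCon_prod, anCon_prod, Con.eq] at h1
    exact h1
  · intro a b
    rw [← aw_prod (fun b => ((FreeMonoid.of b : FreeMonoid B) : (anCon M).Quotient)),
      ← aw_prod (fun b => ((FreeMonoid.of b : FreeMonoid B) : (anCon M).Quotient)),
      anCon_prod, anCon_prod, Con.eq]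
    exact An_braid_eq (hM a b)

lemma isReduced_concat {ω : List B} (h : cs.IsReduced ω) {b : B}
    (hb : cs.length (cs.wordProd ω) < cs.length (cs.wordProd ω * cs.simple b)) :
    cs.IsReduced (ω ++ [b]) := by
  unfold CoxeterSystem.IsReduced at h ⊢
  rw [cs.wordProd_append, cs.wordProd_singleton, List.length_append, List.length_singleton]
  rcases cs.length_mul_simple (cs.wordProd ω) b with h1 | h1 <;> omega

lemma An_rword_concat (hM : ∀ a b, M a b ≠ 0) {w : W} {b : B}
    (hb : cs.length w < cs.length (w * cs.simple b)) :
    An M (rword cs w ++ [b]) = An M (rword cs (w * cs.simple b)) := by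
  apply An_reduced cs hM
  · apply isReduced_concat cs (rword_reduced cs w)
    rwa [rword_prod]
  · exact rword_reduced cs _
  · rw [cs.wordProd_append, cs.wordProd_singleton, rword_prod, rword_prod]

lemma An_rword_descent (hM : ∀ a b, M a b ≠ 0) {w : W} {b : B}
    (hb : ¬ cs.length w < cs.length (w * cs.simple b)) :
    An M (rword cs w ++ [b]) = An M (rword cs w) := by
  have h1 : cs.length (w * cs.simple b) < cs.length (w * cs.simple b * cs.simple b) := by
    rw [cs.simple_mul_simple_cancel_right]
    rcases cs.length_mul_simple w b with h1 | h1 <;> omega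
  have h2 := An_rword_concat cs hM h1
  rw [cs.simple_mul_simple_cancel_right] at h2
  have h3 : An M (rword cs w ++ [b]) = An M (rword cs (w * cs.simple b) ++ [b] ++ [b]) := by
    apply Set.Subset.antisymm
    · exact An_concat h2.symm.subset b
    · exact An_concat h2.subset b
  rw [h3, ← h2]
  apply Set.Subset.antisymm
  · rw [List.append_assoc]
    exact An_append_left (An_idem b) _
  · exact An_mono (by simp)

open scoped Classical in
/-- one step of the Demazure product -/
noncomputable def dst (u : W) (b : B) : W :=
  if cs.length u < cs.length (u * cs.simple b) then u * cs.simple b else u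

/-- Demazure product -/
noncomputable def dem (J : List B) : W := J.foldl (dst cs) 1

lemma dem_concat (J : List B) (b : B) : dem cs (J ++ [b]) = dst cs (dem cs J) b := by
  unfold dem
  rw [List.foldl_append]
  rfl

/-- the annihilator of a word only depends on its Demazure product -/
theorem An_dem (hM : ∀ a b, M a b ≠ 0) (J : List B) : An M J = An M (rword cs (dem cs J)) := by
  induction J using List.reverseRecOn with
  | nil =>
    have : rword cs (dem cs []) = [] := by
      rw [← List.length_eq_zero_iff, rword_length]
      unfold dem
      rw [List.foldl_nil, cs.length_one]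
    rw [this]
  | append_singleton J b ih =>
    have h1 : An M (J ++ [b]) = An M (rword cs (dem cs J) ++ [b]) :=
      Set.Subset.antisymm (An_concat ih.subset b) (An_concat ih.symm.subset b)
    rw [h1, dem_concat, dst]
    by_cases h : cs.length (dem cs J) < cs.length (dem cs J * cs.simple b)
    · rw [if_pos h, An_rword_concat cs hM h]
    · rw [if_neg h, An_rword_descent cs hM h]

/-- a word contains a reduced word of its Demazure product -/
lemma exists_sub_dem (J : List B) :
    ∃ R : List B, R.Sublist J ∧ cs.IsReduced R ∧ cs.wordProd R = dem cs J := by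
  induction J using List.reverseRecOn with
  | nil =>
    refine ⟨[], List.Sublist.refl _, ?_, ?_⟩
    · unfold CoxeterSystem.IsReduced; simp
    · unfold dem; simp
  | append_singleton J b ih =>
    obtain ⟨R, h1, h2, h3⟩ := ih
    rw [dem_concat, dst]
    by_cases h : cs.length (dem cs J) < cs.length (dem cs J * cs.simple b)
    · rw [if_pos h]
      refine ⟨R ++ [b], h1.append (List.Sublist.refl _), ?_, ?_⟩
      · apply isReduced_concat cs h2
        rwa [h3]
      · rw [cs.wordProd_append, cs.wordProd_singleton, h3]
    · rw [if_neg h]
      exact ⟨R, h1.trans (by simp), h2, h3⟩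

lemma gr_eq_dem (q : ℕ → B) (t : ℕ) : gr cs q t = dem cs (pre q t) := by
  induction t with
  | zero => rfl
  | succ t ih =>
    have : pre q (t + 1) = pre q t ++ [q t] := by
      unfold pre
      rw [List.range_succ, List.map_append, List.map_singleton]
    rw [this, dem_concat, ← ih, gr, dst]

lemma An_pre (hM : ∀ a b, M a b ≠ 0) (q : ℕ → B) (t : ℕ) :
    An M (pre q t) = An M (rword cs (gr cs q t)) := by
  rw [An_dem cs hM, gr_eq_dem]

end Pool.Agent.W296.MC
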